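import Pool.Agent.DC.D.Wol.Defs

/-!
# Project DC, block D, Wolpert's lemma: the area of the image in the annulus
-/

set_option autoImplicit false

open scoped ENNReal UpperHalfPlane Matrix ContDiff
open MeasureTheory Set

namespace Pool.Agent.DC.Wol

/-- iterate the periodicity -/
theorem area_iter {F : ℂ → ℂ} {D : Set ℂ} {c l : ℝ}
    (hper : ∀ w ∈ D, w + (c : ℂ) ∈ D ∧ F (w + (c : ℂ)) = F w + (l : ℂ)) (k : ℕ) :
    ∀ w ∈ D, w + ((k * c : ℝ) : ℂ) ∈ D ∧ F (w + ((k * c : ℝ) : ℂ)) = F w + ((k * l : ℝ) : ℂ) := by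
  induction k with
  | zero => intro w hw; simpa using hw
  | succ k ih =>
    intro w hw
    obtain ⟨h1, h2⟩ := ih w hw
    obtain ⟨h3, h4⟩ := hper _ h1
    have e1 : w + (((k + 1 : ℕ) * c : ℝ) : ℂ) = w + ((k * c : ℝ) : ℂ) + (c : ℂ) := by
      push_cast; ring
    refine ⟨by rw [e1]; exact h3, ?_⟩
    rw [e1, h4, h2]
    push_cast; ring

/-- the area of the fundamental rectangle -/
theorem area_rect {l : ℝ} (hl : 0 < l) :
    volume {z : ℂ | z.re ∈ Ico (0 : ℝ) l ∧ z.im ∈ Ioo (0 : ℝ) Real.pi} =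
      ENNReal.ofReal (Real.pi * l) := by
  have e : {z : ℂ | z.re ∈ Ico (0 : ℝ) l ∧ z.im ∈ Ioo (0 : ℝ) Real.pi} =
      Complex.measurableEquivRealProd ⁻¹' (Ico (0 : ℝ) l ×ˢ Ioo (0 : ℝ) Real.pi) := by
    ext z
    simp [Complex.measurableEquivRealProd_apply]
  rw [e, Complex.volume_preserving_equiv_real_prod.measure_preimage
    (measurableSet_Ico.prod measurableSet_Ioo).nullMeasurableSet, Measure.volume_eq_prod,
    Measure.prod_prod, Real.volume_Ico, Real.volume_Ioo, sub_zero, sub_zero,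
    ← ENNReal.ofReal_mul hl.le, mul_comm]

/-- Step 1: a piece of width less than `c` -/
theorem area_piece (F : ℂ → ℂ) (D : Set ℂ) (hFc : ContinuousOn F D) (hFi : InjOn F D)
    (hFS : MapsTo F D SS) {c l : ℝ} (hl : 0 < l)
    (hper : ∀ w ∈ D, w + (c : ℂ) ∈ D ∧ F (w + (c : ℂ)) = F w + (l : ℂ)) (a : ℝ) (E : Set ℂ)
    (hE : MeasurableSet E) (hED : E ⊆ D) (hEN : ∀ w ∈ E, w.re ∈ Ico a (a + c)) :
    volume (F '' E) ≤ ENNReal.ofReal (Real.pi * l) := by
  have hG : MeasurableSet (F '' E) :=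
    hE.image_of_continuousOn_injOn (hFc.mono hED) (hFi.mono hED)
  set G : Set ℂ := F '' E with hGdef
  have hstrip : ∀ k : ℤ, MeasurableSet {z : ℂ | z.re ∈ Ico ((k : ℝ) * l) (((k : ℝ) + 1) * l)} :=
    fun k => Complex.measurable_re measurableSet_Ico
  let P : ℤ → Set ℂ := fun k => G ∩ {z : ℂ | z.re ∈ Ico ((k : ℝ) * l) (((k : ℝ) + 1) * l)}
  have hP : ∀ k, MeasurableSet (P k) := fun k => hG.inter (hstrip k)
  let Q : ℤ → Set ℂ := fun k => (fun z : ℂ => z + (((k : ℝ) * l : ℝ) : ℂ)) ⁻¹' P k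
  have hQ : ∀ k, MeasurableSet (Q k) := fun k => (measurable_add_const _) (hP k)
  have hvol : ∀ k, volume (Q k) = volume (P k) := fun k =>
    measure_preimage_add_right volume _ _
  have hcov : G ⊆ ⋃ k, P k := by
    intro z hz
    refine mem_iUnion.2 ⟨⌊z.re / l⌋, hz, ?_, ?_⟩
    · have := Int.floor_le (z.re / l)
      calc ((⌊z.re / l⌋ : ℤ) : ℝ) * l ≤ z.re / l * l := by gcongr
        _ = z.re := div_mul_cancel₀ _ hl.ne'
    · have := Int.lt_floor_add_one (z.re / l)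
      calc z.re = z.re / l * l := (div_mul_cancel₀ _ hl.ne').symm
        _ < (((⌊z.re / l⌋ : ℤ) : ℝ) + 1) * l := by gcongr
  -- the translates are disjoint
  have key : ∀ j k : ℤ, j < k → Disjoint (Q j) (Q k) := by
    intro j k hjk
    rw [Set.disjoint_left]
    rintro z ⟨⟨w, hw, hwz⟩, -⟩ ⟨⟨w', hw', hwz'⟩, -⟩
    obtain ⟨n, hn⟩ : ∃ n : ℕ, k = j + (n + 1 : ℕ) := by
      obtain ⟨n, hn⟩ := Int.eq_ofNat_of_zero_le (sub_nonneg.2 (Int.add_one_le_iff.2 hjk))
      exact ⟨n, by push_cast; linarith⟩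
    obtain ⟨h1, h2⟩ := area_iter hper (n + 1) w (hED hw)
    have h3 : F w' = F (w + (((n + 1 : ℕ) * c : ℝ) : ℂ)) := by
      rw [h2]
      simp only at hwz hwz'
      rw [hwz', hwz, hn]
      push_cast
      ring
    have h4 := hFi (hED hw') h1 h3
    have h5 : w'.re = w.re + ((n + 1 : ℕ) : ℝ) * c := by
      rw [h4]; simp
    have h6 := (hEN w hw).1
    have h7 := (hEN w' hw').2
    have h8 := (hEN w hw).2
    have hc : 0 < c := by linarith
    have h9 : (1 : ℝ) * c ≤ ((n + 1 : ℕ) : ℝ) * c := by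
      gcongr
      push_cast
      linarith [Nat.cast_nonneg (α := ℝ) n]
    linarith
  have hdisj : Pairwise (Function.onFun Disjoint Q) := by
    intro j k hjk
    rcases lt_or_gt_of_ne hjk with h | h
    · exact key j k h
    · exact (key k j h).symm
  have hsub : (⋃ k, Q k) ⊆ {z : ℂ | z.re ∈ Ico (0 : ℝ) l ∧ z.im ∈ Ioo (0 : ℝ) Real.pi} := by
    refine iUnion_subset fun k => ?_
    rintro z ⟨⟨w, hw, hwz⟩, hz1, hz2⟩
    have hS := hFS (hED hw)
    rw [hwz] at hS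
    simp only [Complex.add_re, Complex.ofReal_re] at hz1 hz2
    simp only [SS, Set.mem_ofPred_eq, Complex.add_im, Complex.ofReal_im, add_zero] at hS
    refine ⟨⟨by linarith, ?_⟩, hS.1, hS.2⟩
    have : ((k : ℝ) + 1) * l = (k : ℝ) * l + l := by ring
    linarith
  calc volume G ≤ volume (⋃ k, P k) := measure_mono hcov
    _ ≤ ∑' k, volume (P k) := measure_iUnion_le _
    _ = ∑' k, volume (Q k) := by simp only [hvol]
    _ = volume (⋃ k, Q k) := (measure_iUnion hdisj hQ).symm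
    _ ≤ volume {z : ℂ | z.re ∈ Ico (0 : ℝ) l ∧ z.im ∈ Ioo (0 : ℝ) Real.pi} := measure_mono hsub
    _ = ENNReal.ofReal (Real.pi * l) := area_rect hl

/-- area of the image of a set of width `N c`, in the annulus `SS / l` -/
theorem area_le (F : ℂ → ℂ) (D : Set ℂ) (hFc : ContinuousOn F D) (hFi : InjOn F D)
    (hFS : MapsTo F D SS) {c l : ℝ} (hc : 0 < c) (hl : 0 < l)
    (hper : ∀ w ∈ D, w + (c : ℂ) ∈ D ∧ F (w + (c : ℂ)) = F w + (l : ℂ)) (N : ℕ) (E : Set ℂ)
    (hE : MeasurableSet E) (hED : E ⊆ D) (hEN : ∀ w ∈ E, w.re ∈ Icc (0 : ℝ) (N * c)) :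
    volume (F '' E) ≤ ENNReal.ofReal ((N + 1) * (Real.pi * l)) := by
  let T : ℕ → Set ℂ := fun n => E ∩ {w : ℂ | w.re ∈ Ico ((n : ℝ) * c) ((n : ℝ) * c + c)}
  have hT : ∀ n, MeasurableSet (T n) := fun n =>
    hE.inter (Complex.measurable_re measurableSet_Ico)
  have hcov : F '' E ⊆ ⋃ n ∈ Finset.range (N + 1), F '' T n := by
    rintro _ ⟨w, hw, rfl⟩
    have h0 := (hEN w hw).1
    have h1 := (hEN w hw).2
    have h2 : 0 ≤ w.re / c := div_nonneg h0 hc.le
    have h3 : w.re / c ≤ N := (div_le_iff₀ hc).2 h1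
    have h4 := Nat.floor_le h2
    have h5 := Nat.lt_floor_add_one (w.re / c)
    have h6 : w.re / c * c = w.re := div_mul_cancel₀ _ hc.ne'
    refine mem_biUnion (x := ⌊w.re / c⌋₊) ?_ ⟨w, ⟨hw, ?_, ?_⟩, rfl⟩
    · simp only [Finset.coe_range, mem_Iio]
      have : ((⌊w.re / c⌋₊ : ℕ) : ℝ) ≤ N := h4.trans h3
      have := Nat.cast_le.1 this
      omega
    · calc ((⌊w.re / c⌋₊ : ℕ) : ℝ) * c ≤ w.re / c * c := by gcongr
        _ = w.re := h6
    · calc w.re = w.re / c * c := h6.symm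
        _ < (((⌊w.re / c⌋₊ : ℕ) : ℝ) + 1) * c := by gcongr
        _ = ((⌊w.re / c⌋₊ : ℕ) : ℝ) * c + c := by ring
  calc volume (F '' E) ≤ volume (⋃ n ∈ Finset.range (N + 1), F '' T n) := measure_mono hcov
    _ ≤ ∑ n ∈ Finset.range (N + 1), volume (F '' T n) := measure_biUnion_finset_le _ _
    _ ≤ ∑ _n ∈ Finset.range (N + 1), ENNReal.ofReal (Real.pi * l) := by
        refine Finset.sum_le_sum fun n _ => ?_
        exact area_piece F D hFc hFi hFS hl hper ((n : ℝ) * c) (T n) (hT n)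
          (inter_subset_left.trans hED) fun w hw => hw.2
    _ = ENNReal.ofReal ((N + 1) * (Real.pi * l)) := by
        have e : ((N : ℝ) + 1) = ((N + 1 : ℕ) : ℝ) := by push_cast; ring
        rw [Finset.sum_const, Finset.card_range, nsmul_eq_mul, e,
          ENNReal.ofReal_mul (Nat.cast_nonneg (N + 1)), ENNReal.ofReal_natCast]

end Pool.Agent.DC.Wol
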