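import Pool.Agent.DC.D.Wol.Defs

/-!
# Project DC, block D, row W5: charts of hyperbolic and parabolic matrices
-/

open scoped ENNReal UpperHalfPlane Matrix ContDiff
open MeasureTheory Set

namespace Pool.Agent.DC.Wol

/-- the Moebius map of a matrix, as a function of a complex variable -/
noncomputable def mob (M : SL2) (z : ℂ) : ℂ := toC (fun z => M • z) z

theorem mob_coe (M : SL2) (z : ℍ) : mob M (z : ℂ) = ((M • z : ℍ) : ℂ) := by
  unfold mob toC
  rw [UpperHalfPlane.ofComplex_apply]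

theorem mob_mem (M : SL2) (z : ℂ) : mob M z ∈ HH := (M • UpperHalfPlane.ofComplex z).im_pos

theorem coe_of_mem {z : ℂ} (hz : z ∈ HH) : ((UpperHalfPlane.ofComplex z : ℍ) : ℂ) = z := by
  rw [UpperHalfPlane.ofComplex_apply_of_im_pos hz]

theorem mob_mob (M N : SL2) (z : ℂ) : mob M (mob N z) = mob (M * N) z := by
  change ((M • UpperHalfPlane.ofComplex ((N • UpperHalfPlane.ofComplex z : ℍ) : ℂ) : ℍ) : ℂ) =
    (((M * N) • UpperHalfPlane.ofComplex z : ℍ) : ℂ)
  rw [UpperHalfPlane.ofComplex_apply, mul_smul]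

theorem mob_one {z : ℂ} (hz : z ∈ HH) : mob 1 z = z := by
  change (((1 : SL2) • UpperHalfPlane.ofComplex z : ℍ) : ℂ) = z
  rw [one_smul, coe_of_mem hz]

theorem den_ne (M : SL2) {z : ℂ} (hz : z ∈ HH) :
    (((M : M2) 1 0 : ℝ) : ℂ) * z + (((M : M2) 1 1 : ℝ) : ℂ) ≠ 0 := by
  intro h
  have h1 := congrArg Complex.im h
  have h2 := congrArg Complex.re h
  simp only [Complex.add_im, Complex.mul_im, Complex.ofReal_re, Complex.ofReal_im, zero_mul,
    add_zero, Complex.zero_im] at h1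
  simp only [Complex.add_re, Complex.mul_re, Complex.ofReal_re, Complex.ofReal_im, zero_mul,
    sub_zero, Complex.zero_re] at h2
  have hz' : z.im ≠ 0 := ne_of_gt hz
  have h3 : (M : M2) 1 0 = 0 := by
    rcases mul_eq_zero.mp h1 with h3 | h3
    · exact h3
    · exact absurd h3 hz'
  rw [h3, zero_mul, zero_add] at h2
  have h4 := M.det_coe
  rw [Matrix.det_fin_two, h3, h2] at h4
  norm_num at h4

theorem mob_eq (M : SL2) {z : ℂ} (hz : z ∈ HH) :
    mob M z = ((((M : M2) 0 0 : ℝ) : ℂ) * z + (((M : M2) 0 1 : ℝ) : ℂ)) /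
      ((((M : M2) 1 0 : ℝ) : ℂ) * z + (((M : M2) 1 1 : ℝ) : ℂ)) := by
  unfold mob toC
  rw [UpperHalfPlane.coe_specialLinearGroup_apply, coe_of_mem hz]
  rfl

theorem mob_diff (M : SL2) : DifferentiableOn ℂ (mob M) HH := by
  have h : DifferentiableOn ℂ (fun z : ℂ =>
      ((((M : M2) 0 0 : ℝ) : ℂ) * z + (((M : M2) 0 1 : ℝ) : ℂ)) /
      ((((M : M2) 1 0 : ℝ) : ℂ) * z + (((M : M2) 1 1 : ℝ) : ℂ))) HH := by
    refine DifferentiableOn.div (by fun_prop) (by fun_prop) ?_
    intro z hz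
    exact den_ne M hz
  exact h.congr fun z hz => mob_eq M hz

/-- proportional matrices have the same Moebius map -/
theorem mob_smul (X Y : SL2) (ε : ℝ) (hε : ε ≠ 0) (h : (X : M2) = ε • (Y : M2)) {z : ℂ}
    (hz : z ∈ HH) : mob X z = mob Y z := by
  rw [mob_eq X hz, mob_eq Y hz, h]
  simp only [Matrix.smul_apply, smul_eq_mul, Complex.ofReal_mul]
  have hε' : (ε : ℂ) ≠ 0 := by exact_mod_cast hε
  have h1 := den_ne Y hz
  have h2 : (ε : ℂ) * (((Y : M2) 1 0 : ℝ) : ℂ) * z + (ε : ℂ) * (((Y : M2) 1 1 : ℝ) : ℂ) =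
      ε * ((((Y : M2) 1 0 : ℝ) : ℂ) * z + (((Y : M2) 1 1 : ℝ) : ℂ)) := by ring
  have h3 : (ε : ℂ) * (((Y : M2) 0 0 : ℝ) : ℂ) * z + (ε : ℂ) * (((Y : M2) 0 1 : ℝ) : ℂ) =
      ε * ((((Y : M2) 0 0 : ℝ) : ℂ) * z + (((Y : M2) 0 1 : ℝ) : ℂ)) := by ring
  rw [h2, h3, mul_div_mul_left _ _ hε']

theorem fix_of_mob {A : SL2} {z : ℂ} (hz : z ∈ HH) (h : mob A z = z) : ∃ z : ℍ, A • z = z := by
  refine ⟨UpperHalfPlane.ofComplex z, ?_⟩
  apply UpperHalfPlane.ext
  rw [coe_of_mem hz]
  exact h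

/-- half plane chart -/
noncomputable def hChart (M : SL2) : Chart HH where
  Φ := mob M
  Ψ := mob M⁻¹
  mapsΦ := fun z _ => mob_mem M z
  mapsΨ := fun z _ => mob_mem M⁻¹ z
  left := fun w hw => by rw [mob_mob, inv_mul_cancel, mob_one hw]
  right := fun w hw => by rw [mob_mob, mul_inv_cancel, mob_one hw]
  dΦ := mob_diff M
  dΨ := mob_diff M⁻¹

theorem exp_mem {w : ℂ} (hw : w ∈ SS) : Complex.exp w ∈ HH := by
  change 0 < (Complex.exp w).im
  rw [Complex.exp_im]
  exact mul_pos (Real.exp_pos _) (Real.sin_pos_of_pos_of_lt_pi hw.1 hw.2)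

theorem log_mem {z : ℂ} (hz : z ∈ HH) : Complex.log z ∈ SS := by
  have hz' : 0 < z.im := hz
  constructor
  · rw [Complex.log_im]
    have h1 : 0 ≤ Complex.arg z := Complex.arg_nonneg_iff.mpr hz'.le
    refine lt_of_le_of_ne h1 fun h => ?_
    have h2 := Complex.arg_eq_zero_iff.mp h.symm
    exact hz'.ne' h2.2
  · rw [Complex.log_im]
    refine lt_of_le_of_ne (Complex.arg_le_pi z) fun h => ?_
    have h2 := Complex.arg_eq_pi_iff.mp h
    exact hz'.ne' h2.2

theorem ne_zero_of_mem {z : ℂ} (hz : z ∈ HH) : z ≠ 0 := by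
  rintro rfl
  exact lt_irrefl (0 : ℝ) hz

/-- strip chart -/
noncomputable def sChart (M : SL2) : Chart SS where
  Φ := fun w => mob M (Complex.exp w)
  Ψ := fun z => Complex.log (mob M⁻¹ z)
  mapsΦ := fun w _ => mob_mem M _
  mapsΨ := fun z _ => log_mem (mob_mem M⁻¹ z)
  left := fun w hw => by
    have h1 : mob M⁻¹ (mob M (Complex.exp w)) = Complex.exp w := by
      rw [mob_mob, inv_mul_cancel, mob_one (exp_mem hw)]
    change Complex.log (mob M⁻¹ (mob M (Complex.exp w))) = w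
    rw [h1]
    have h2 := Real.pi_pos
    exact Complex.log_exp (by linarith [hw.1]) hw.2.le
  right := fun z hz => by
    rw [Complex.exp_log (ne_zero_of_mem (mob_mem M⁻¹ z)), mob_mob, mul_inv_cancel, mob_one hz]
  dΦ := (mob_diff M).comp Complex.differentiable_exp.differentiableOn fun w hw => exp_mem hw
  dΨ := by
    refine DifferentiableOn.clog (mob_diff M⁻¹) fun z hz => ?_
    exact Complex.mem_slitPlane_iff.mpr (Or.inr (ne_of_gt (mob_mem M⁻¹ z)))

/-- eigenvectors of a hyperbolic matrix -/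
theorem hyp_eig (A : SL2) (mu : ℝ) (h0 : mu ≠ 0) (h1 : mu ≠ mu⁻¹)
    (htr : (A : M2).trace = mu + mu⁻¹) :
    ∃ M D : SL2, (D : M2) = !![mu, 0; 0, mu⁻¹] ∧ A * M = M * D := by
  obtain ⟨A, hA⟩ := A
  obtain ⟨a, b, c, d, rfl⟩ : ∃ a b c d, A = !![a, b; c, d] :=
    ⟨A 0 0, A 0 1, A 1 0, A 1 1, Matrix.eta_fin_two A⟩
  rw [Matrix.det_fin_two_of] at hA
  change Matrix.trace !![a, b; c, d] = mu + mu⁻¹ at htr
  rw [Matrix.trace_fin_two_of] at htr
  obtain ⟨nu, hnu⟩ : ∃ nu, nu = mu⁻¹ := ⟨_, rfl⟩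
  rw [← hnu] at h1 htr ⊢
  have hmn : mu * nu = 1 := by
    rw [hnu]
    exact mul_inv_cancel₀ h0
  have hD : Matrix.det !![mu, 0; 0, nu] = 1 := by
    rw [Matrix.det_fin_two_of]
    linarith
  have h2 : mu - nu ≠ 0 := sub_ne_zero.mpr h1
  by_cases hc : c = 0
  · subst hc
    have h3 : (mu - a) * (mu - d) = 0 := by
      have h4 : a * d = 1 := by linarith
      have h5 : d = mu + nu - a := by linarith
      rw [h5] at h4 ⊢
      linear_combination h4 - hmn
    rcases mul_eq_zero.mp h3 with h4 | h4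
    · have ha : a = mu := by linarith
      have hd : d = nu := by linarith
      subst ha hd
      have h5 : d - a ≠ 0 := fun h => h2 (by linarith)
      refine ⟨⟨!![1 / (d - a), b; 0, d - a], ?_⟩, ⟨!![a, 0; 0, d], hD⟩, rfl, ?_⟩
      · rw [Matrix.det_fin_two_of]
        field_simp
        ring
      · apply Subtype.ext
        change !![a, b; 0, d] * !![1 / (d - a), b; 0, d - a] =
          !![1 / (d - a), b; 0, d - a] * !![a, 0; 0, d]
        rw [Matrix.mul_fin_two, Matrix.mul_fin_two]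
        congr 1
        ext i j
        fin_cases i <;> fin_cases j <;> simp <;> ring
    · have hd : d = mu := by linarith
      have ha : a = nu := by linarith
      subst ha hd
      have h5 : a - d ≠ 0 := fun h => h2 (by linarith)
      refine ⟨⟨!![b / (a - d), 1; -1, 0], ?_⟩, ⟨!![d, 0; 0, a], hD⟩, rfl, ?_⟩
      · rw [Matrix.det_fin_two_of]
        ring
      · apply Subtype.ext
        change !![a, b; 0, d] * !![b / (a - d), 1; -1, 0] =
          !![b / (a - d), 1; -1, 0] * !![d, 0; 0, a]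
        rw [Matrix.mul_fin_two, Matrix.mul_fin_two]
        have h6 : a * (b / (a - d)) + b * -1 = b / (a - d) * d + 1 * 0 := by
          field_simp
          ring
        rw [h6]
        congr 1
        ext i j
        fin_cases i <;> fin_cases j <;> simp
  · have h3 : c * (mu - nu) ≠ 0 := mul_ne_zero hc h2
    have h4 : a = mu + nu - d := by linarith
    subst h4
    refine ⟨⟨!![(mu - d) / (c * (mu - nu)), nu - d; 1 / (mu - nu), c], ?_⟩,
      ⟨!![mu, 0; 0, nu], hD⟩, rfl, ?_⟩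
    · rw [Matrix.det_fin_two_of]
      field_simp
      ring
    · apply Subtype.ext
      change !![mu + nu - d, b; c, d] *
          !![(mu - d) / (c * (mu - nu)), nu - d; 1 / (mu - nu), c] =
        !![(mu - d) / (c * (mu - nu)), nu - d; 1 / (mu - nu), c] * !![mu, 0; 0, nu]
      rw [Matrix.mul_fin_two, Matrix.mul_fin_two]
      have h6 : (mu + nu - d) * ((mu - d) / (c * (mu - nu))) + b * (1 / (mu - nu)) =
          (mu - d) / (c * (mu - nu)) * mu + (nu - d) * 0 := by
        field_simp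
        linear_combination hmn - hA
      have h7 : (mu + nu - d) * (nu - d) + b * c =
          (mu - d) / (c * (mu - nu)) * 0 + (nu - d) * nu := by
        linear_combination hmn - hA
      have h8 : c * ((mu - d) / (c * (mu - nu))) + d * (1 / (mu - nu)) =
          1 / (mu - nu) * mu + c * 0 := by
        field_simp
        ring
      have h9 : c * (nu - d) + d * c = 1 / (mu - nu) * 0 + c * nu := by ring
      rw [h6, h7, h8, h9]

/-- Jordan basis of a parabolic matrix -/
theorem par_eig (A : SL2) (ε : ℝ) (hε : ε * ε = 1) (htr : (A : M2).trace = 2 * ε)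
    (hne : (A : M2) ≠ ε • (1 : M2)) :
    ∃ (t : ℝ) (M T : SL2), t ≠ 0 ∧ (T : M2) = !![1, t; 0, 1] ∧
      ((A * M : SL2) : M2) = ε • ((M * T : SL2) : M2) := by
  obtain ⟨A, hA⟩ := A
  obtain ⟨a, b, c, d, rfl⟩ : ∃ a b c d, A = !![a, b; c, d] :=
    ⟨A 0 0, A 0 1, A 1 0, A 1 1, Matrix.eta_fin_two A⟩
  rw [Matrix.det_fin_two_of] at hA
  change Matrix.trace !![a, b; c, d] = 2 * ε at htr
  rw [Matrix.trace_fin_two_of] at htr
  change !![a, b; c, d] ≠ ε • (1 : M2) at hne
  by_cases hc : c = 0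
  · subst hc
    have h1 : (a - ε) ^ 2 = 0 := by
      have h2 : d = 2 * ε - a := by linarith
      rw [h2] at hA
      linear_combination -hA + hε
    have ha : a = ε := by
      have h2 := pow_eq_zero_iff (two_ne_zero) |>.mp h1
      linarith
    have hd : d = ε := by linarith
    subst ha hd
    have hb : b ≠ 0 := by
      rintro rfl
      apply hne
      rw [Matrix.one_fin_two, Matrix.smul_of]
      ext i j
      fin_cases i <;> fin_cases j <;> simp
    have ha0 : d ≠ 0 := by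
      rintro rfl
      norm_num at hε
    refine ⟨d * b, 1, ⟨!![1, d * b; 0, 1], by rw [Matrix.det_fin_two_of]; ring⟩,
      mul_ne_zero ha0 hb, rfl, ?_⟩
    rw [mul_one, one_mul]
    change !![d, b; 0, d] = d • !![1, d * b; 0, 1]
    have h3 : d * (d * b) = b := by rw [← mul_assoc, hε, one_mul]
    ext i j
    fin_cases i <;> fin_cases j <;> simp [h3]
  · have hε0 : ε ≠ 0 := by
      rintro rfl
      norm_num at hε
    have h4 : d = 2 * ε - a := by linarith
    subst h4
    have hr : ε * c ≠ 0 := mul_ne_zero hε0 hc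
    refine ⟨-(ε * c), ⟨!![-(ε * a - 1) / (ε * c), 1; -1, 0], ?_⟩,
      ⟨!![1, -(ε * c); 0, 1], by rw [Matrix.det_fin_two_of]; ring⟩, neg_ne_zero.mpr hr, rfl, ?_⟩
    · rw [Matrix.det_fin_two_of]
      ring
    · change !![a, b; c, 2 * ε - a] * !![-(ε * a - 1) / (ε * c), 1; -1, 0] =
        ε • (!![-(ε * a - 1) / (ε * c), 1; -1, 0] * !![1, -(ε * c); 0, 1])
      rw [Matrix.mul_fin_two, Matrix.mul_fin_two]
      have h6 : a * (-(ε * a - 1) / (ε * c)) + b * -1 =
          ε * (-(ε * a - 1) / (ε * c) * 1 + 1 * 0) := by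
        field_simp
        linear_combination ε * hA - a * hε
      have h7 : a * 1 + b * 0 = ε * (-(ε * a - 1) / (ε * c) * -(ε * c) + 1 * 1) := by
        field_simp
        linear_combination (-a) * hε
      have h8 : c * (-(ε * a - 1) / (ε * c)) + (2 * ε - a) * -1 = ε * (-1 * 1 + 0 * 0) := by
        field_simp
        linear_combination -hε
      have h9 : c * 1 + (2 * ε - a) * 0 = ε * (-1 * -(ε * c) + 0 * 1) := by
        linear_combination (-c) * hε
      rw [h6, h7, h8, h9]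
      ext i j
      fin_cases i <;> fin_cases j <;> simp

/-- a hyperbolic matrix is the translation by its translation length in a strip chart -/
theorem hyp_chart (A : SL2) (hA : 2 < |(A : M2).trace|) :
    0 < tl A ∧ ∃ C : Chart SS, ∀ w ∈ SS, C.Φ (w + (tl A : ℂ)) = toC (fun z => A • z) (C.Φ w) := by
  have h1 : 1 < |(A : M2).trace| / 2 := by linarith
  have hpos : 0 < tl A := mul_pos two_pos (Real.arcosh_pos h1)
  refine ⟨hpos, ?_⟩
  have hc : Real.cosh (tl A / 2) = |(A : M2).trace| / 2 := by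
    unfold tl
    rw [mul_div_cancel_left₀ _ (two_ne_zero), Real.cosh_arcosh h1.le]
  obtain ⟨s, hs, hst⟩ : ∃ s : ℝ, s * s = 1 ∧ (A : M2).trace = s * |(A : M2).trace| := by
    rcases le_total 0 ((A : M2).trace) with h | h
    · exact ⟨1, by norm_num, by rw [abs_of_nonneg h, one_mul]⟩
    · exact ⟨-1, by norm_num, by rw [abs_of_nonpos h]; ring⟩
  have hs0 : s ≠ 0 := by
    rintro rfl
    norm_num at hs
  have hsi : s⁻¹ = s := (eq_inv_of_mul_eq_one_left hs).symm
  obtain ⟨mu, hmu⟩ : ∃ mu : ℝ, mu = s * Real.exp (tl A / 2) := ⟨_, rfl⟩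
  have hmui : mu⁻¹ = s * Real.exp (-(tl A / 2)) := by
    rw [hmu, mul_inv, hsi, Real.exp_neg]
  have hmu0 : mu ≠ 0 := by
    rw [hmu]
    exact mul_ne_zero hs0 (Real.exp_pos _).ne'
  have htr : (A : M2).trace = mu + mu⁻¹ := by
    rw [hst, hmui, hmu]
    rw [Real.cosh_eq] at hc
    have h2 : |(A : M2).trace| = Real.exp (tl A / 2) + Real.exp (-(tl A / 2)) := by linarith
    rw [h2]
    ring
  have hne : mu ≠ mu⁻¹ := by
    rw [hmui, hmu]
    intro h
    have h2 := mul_left_cancel₀ hs0 h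
    have h3 := Real.exp_injective h2
    linarith
  obtain ⟨M, D, hD, hMD⟩ := hyp_eig A mu hmu0 hne htr
  refine ⟨sChart M, fun w hw => ?_⟩
  change mob M (Complex.exp (w + (tl A : ℂ))) = mob A (mob M (Complex.exp w))
  rw [mob_mob, hMD, ← mob_mob]
  congr 1
  rw [mob_eq D (exp_mem hw), hD]
  have h2 : ((Matrix.of ![![mu, 0], ![0, mu⁻¹]] : M2) 1 0 : ℝ) = 0 := rfl
  have h3 : (mu : ℂ) * mu = Complex.exp (tl A : ℂ) := by
    rw [← Complex.ofReal_mul, ← Complex.ofReal_exp]
    congr 1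
    rw [hmu]
    calc s * Real.exp (tl A / 2) * (s * Real.exp (tl A / 2))
        = (s * s) * (Real.exp (tl A / 2) * Real.exp (tl A / 2)) := by ring
      _ = Real.exp (tl A) := by
        rw [hs, one_mul, ← Real.exp_add]
        congr 1
        ring
  have hmuC : (mu : ℂ) ≠ 0 := by exact_mod_cast hmu0
  simp only [Matrix.of_apply, Matrix.cons_val', Matrix.cons_val_zero, Matrix.cons_val_one,
    Matrix.cons_val_fin_one, Complex.ofReal_zero, zero_mul, zero_add, add_zero,
    Complex.ofReal_inv]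
  rw [Complex.exp_add, ← h3]
  field_simp

/-- a matrix which is not hyperbolic has a fixed point or is a translation in a half plane chart,
up to inversion -/
theorem par_or_fix (A : SL2) (hA : |(A : M2).trace| ≤ 2) :
    (∃ z : ℍ, A • z = z) ∨ ∃ (c : ℝ) (C : Chart HH), 0 < c ∧
      ((∀ w ∈ HH, C.Φ (w + (c : ℂ)) = toC (fun z => A • z) (C.Φ w)) ∨
       (∀ w ∈ HH, C.Φ (w + (c : ℂ)) = toC (fun z => A⁻¹ • z) (C.Φ w))) := by
  rcases hA.lt_or_eq with hlt | heq
  · left
    have hdet := A.det_coe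
    rw [Matrix.det_fin_two] at hdet
    rw [Matrix.trace_fin_two] at hlt
    obtain ⟨a, ha⟩ : ∃ a, a = (A : M2) 0 0 := ⟨_, rfl⟩
    obtain ⟨b, hb⟩ : ∃ b, b = (A : M2) 0 1 := ⟨_, rfl⟩
    obtain ⟨c, hc⟩ : ∃ c, c = (A : M2) 1 0 := ⟨_, rfl⟩
    obtain ⟨d, hd⟩ : ∃ d, d = (A : M2) 1 1 := ⟨_, rfl⟩
    rw [← ha, ← hb, ← hc, ← hd] at hdet
    rw [← ha, ← hd] at hlt
    have h4 : (a + d) ^ 2 < 4 := by
      have h5 := sq_lt_sq' (by linarith [abs_nonneg (a + d)] : -2 < |a + d|) hlt
      rw [sq_abs] at h5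
      linarith
    have hc0 : c ≠ 0 := by
      rintro rfl
      nlinarith [sq_nonneg (a - d)]
    have hs : 0 < Real.sqrt (4 - (a + d) ^ 2) := Real.sqrt_pos.mpr (by linarith)
    have hs2 : Real.sqrt (4 - (a + d) ^ 2) ^ 2 = 4 - (a + d) ^ 2 :=
      Real.sq_sqrt (by linarith)
    obtain ⟨s, hsd⟩ : ∃ s, s = Real.sqrt (4 - (a + d) ^ 2) := ⟨_, rfl⟩
    rw [← hsd] at hs hs2
    have hca : 0 < |c| := abs_pos.mpr hc0
    obtain ⟨x, hx⟩ : ∃ x, x = (a - d) / (2 * c) := ⟨_, rfl⟩
    obtain ⟨y, hy⟩ : ∃ y, y = s / (2 * |c|) := ⟨_, rfl⟩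
    have hy0 : 0 < y := by
      rw [hy]
      positivity
    have hcx : 2 * c * x = a - d := by
      rw [hx]
      field_simp
    have hcy : 4 * c ^ 2 * y ^ 2 = 4 - (a + d) ^ 2 := by
      rw [hy, div_pow, mul_pow, sq_abs, hs2]
      field_simp
      ring
    have hz : (⟨x, y⟩ : ℂ) ∈ HH := hy0
    apply fix_of_mob hz
    rw [mob_eq A hz, ← ha, ← hb, ← hc, ← hd, div_eq_iff (by
      have := den_ne A hz
      rwa [← hc, ← hd] at this)]
    apply Complex.ext
    · simp only [Complex.add_re, Complex.mul_re, Complex.add_im, Complex.mul_im,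
        Complex.ofReal_re, Complex.ofReal_im, zero_mul, sub_zero, add_zero]
      have h6 : 4 * c * (a * x + b - (x * (c * x + d) - y * (c * y))) = 0 := by
        have h7 : a = 2 * c * x + d := by linarith
        rw [h7] at hcy hdet ⊢
        linear_combination hcy - 4 * hdet
      have h8 := (mul_eq_zero.mp h6).resolve_left (by positivity)
      linarith
    · simp only [Complex.add_re, Complex.mul_re, Complex.add_im, Complex.mul_im,
        Complex.ofReal_re, Complex.ofReal_im, zero_mul, sub_zero, add_zero]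
      linear_combination (-y) * hcx
  · obtain ⟨ε, hε, htr⟩ : ∃ ε : ℝ, ε * ε = 1 ∧ (A : M2).trace = 2 * ε := by
      rcases le_total 0 ((A : M2).trace) with h | h
      · rw [abs_of_nonneg h] at heq
        exact ⟨1, by norm_num, by linarith⟩
      · rw [abs_of_nonpos h] at heq
        exact ⟨-1, by norm_num, by linarith⟩
    have hε0 : ε ≠ 0 := by
      rintro rfl
      norm_num at hε
    by_cases hne : (A : M2) = ε • (1 : M2)
    · left
      have hI : Complex.I ∈ HH := by
        change 0 < Complex.I.im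
        rw [Complex.I_im]
        exact one_pos
      refine fix_of_mob hI ?_
      rw [mob_smul A 1 ε hε0 hne hI, mob_one hI]
    · right
      obtain ⟨t, M, T, ht, hT, hAM⟩ := par_eig A ε hε htr hne
      have hTm : ∀ z ∈ HH, mob T z = z + (t : ℂ) := by
        intro z hz
        rw [mob_eq T hz, hT]
        simp
      have hmain : ∀ z ∈ HH, mob A (mob M z) = mob M (z + (t : ℂ)) := by
        intro z hz
        rw [mob_mob, mob_smul (A * M) (M * T) ε hε0 hAM hz, ← mob_mob, hTm z hz]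
      rcases lt_or_gt_of_ne ht with htn | htp
      · refine ⟨-t, hChart M, by linarith, Or.inr fun w hw => ?_⟩
        change mob M (w + ((-t : ℝ) : ℂ)) = mob A⁻¹ (mob M w)
        have hw' : w + ((-t : ℝ) : ℂ) ∈ HH := by
          change 0 < (w + ((-t : ℝ) : ℂ)).im
          rw [Complex.add_im, Complex.ofReal_im, add_zero]
          exact hw
        have h1 := hmain _ hw'
        have h2 : w + ((-t : ℝ) : ℂ) + (t : ℂ) = w := by
          rw [Complex.ofReal_neg]
          ring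
        rw [h2] at h1
        rw [← h1, mob_mob, inv_mul_cancel, mob_one (mob_mem _ _)]
      · refine ⟨t, hChart M, htp, Or.inl fun w hw => ?_⟩
        change mob M (w + (t : ℂ)) = mob A (mob M w)
        exact (hmain w hw).symm

/-- a hyperbolic matrix has no fixed point in the upper half plane -/
theorem hyp_no_fix (B : SL2) (hB : 2 < |(B : M2).trace|) (z : ℍ) : B • z ≠ z := by
  intro h
  have hz : (z : ℂ) ∈ HH := z.im_pos
  have h1 : mob B (z : ℂ) = (z : ℂ) := by rw [mob_coe, h]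
  rw [mob_eq B hz, div_eq_iff (den_ne B hz)] at h1
  have hdet := B.det_coe
  rw [Matrix.det_fin_two] at hdet
  rw [Matrix.trace_fin_two] at hB
  obtain ⟨a, ha⟩ : ∃ a, a = (B : M2) 0 0 := ⟨_, rfl⟩
  obtain ⟨b, hb⟩ : ∃ b, b = (B : M2) 0 1 := ⟨_, rfl⟩
  obtain ⟨c, hc⟩ : ∃ c, c = (B : M2) 1 0 := ⟨_, rfl⟩
  obtain ⟨d, hd⟩ : ∃ d, d = (B : M2) 1 1 := ⟨_, rfl⟩
  rw [← ha, ← hb, ← hc, ← hd] at hdet h1
  rw [← ha, ← hd] at hB
  have hre := congrArg Complex.re h1
  have him := congrArg Complex.im h1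
  have hy : 0 < (z : ℂ).im := z.im_pos
  simp only [Complex.add_re, Complex.mul_re, Complex.add_im, Complex.mul_im,
    Complex.ofReal_re, Complex.ofReal_im, zero_mul, sub_zero, add_zero] at hre him
  obtain ⟨x, hx⟩ : ∃ x, x = (z : ℂ).re := ⟨_, rfl⟩
  obtain ⟨y, hyy⟩ : ∃ y, y = (z : ℂ).im := ⟨_, rfl⟩
  rw [← hx, ← hyy] at hre him
  rw [← hyy] at hy
  have h2 : a - d = 2 * c * x := by
    have h3 : y * (a - d - 2 * c * x) = 0 := by linear_combination him
    have h4 := (mul_eq_zero.mp h3).resolve_left hy.ne'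
    linarith
  have h5 : 4 < (a + d) ^ 2 := by
    have h6 := sq_lt_sq' (by linarith : -|a + d| < 2) hB
    rw [sq_abs] at h6
    linarith
  have h7 : a = 2 * c * x + d := by linarith
  have h8 : b = -c * x ^ 2 - c * y ^ 2 := by
    rw [h7] at hre
    linear_combination hre
  rw [h7, h8] at hdet
  rw [h7] at h5
  nlinarith [sq_nonneg (c * y)]

end Pool.Agent.DC.Wol
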