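import Pool.Agent.DC.D.Wol.Defs

/-!
# Project DC, Wolpert's lemma: the extremal distance from below
-/

open scoped ENNReal UpperHalfPlane Matrix ContDiff Topology
open MeasureTheory Set

namespace Pool.Agent.DC.Wol

/-- the real determinant of the multiplication by a complex number -/
theorem det_deriv (L : ℂ →L[ℂ] ℂ) :
    |(L.restrictScalars ℝ).det| = ‖L 1‖ ^ 2 := by
  have h1 : (L.restrictScalars ℝ).det = LinearMap.det ((L : ℂ →ₗ[ℂ] ℂ).restrictScalars ℝ) := rfl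
  have h2 : LinearMap.det (L : ℂ →ₗ[ℂ] ℂ) = L 1 := by
    have : (L : ℂ →ₗ[ℂ] ℂ) = (L 1) • (LinearMap.id : ℂ →ₗ[ℂ] ℂ) := by
      ext
      simp
    rw [this, LinearMap.det_smul]
    simp
  rw [h1, LinearMap.det_restrictScalars, h2, Algebra.norm_complex_apply,
    Complex.normSq_eq_norm_sq, abs_of_nonneg (by positivity)]

/-- the area of the image -/
theorem area_eq (Ψ : ℂ → ℂ) (U : Set ℂ) (hU : IsOpen U) (hΨ : DifferentiableOn ℂ Ψ U)
    (hinj : InjOn Ψ U) (Q : Set ℂ) (hQ : IsCompact Q) (hQU : Q ⊆ U) :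
    ∫⁻ z in Q, (U.indicator (fun z => ‖deriv Ψ z‖ₑ) z) ^ 2 = volume (Ψ '' Q) := by
  have hd : ∀ x ∈ Q, HasFDerivWithinAt Ψ ((fderiv ℂ Ψ x).restrictScalars ℝ) Q x := fun x hx =>
    ((hΨ.differentiableAt (hU.mem_nhds (hQU hx))).hasFDerivAt.restrictScalars ℝ).hasFDerivWithinAt
  rw [← lintegral_abs_det_fderiv_eq_addHaar_image volume hQ.measurableSet hd (hinj.mono hQU)]
  refine setLIntegral_congr_fun hQ.measurableSet fun x hx => ?_
  show (U.indicator (fun z => ‖deriv Ψ z‖ₑ) x) ^ 2 =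
    ENNReal.ofReal |((fderiv ℂ Ψ x).restrictScalars ℝ).det|
  rw [indicator_of_mem (hQU hx), det_deriv, ENNReal.ofReal_pow (norm_nonneg _), ofReal_norm]
  rfl

/-- the image of a compact set with interior has positive area -/
theorem area_pos (Ψ : ℂ → ℂ) (U : Set ℂ) (hΨ : DifferentiableOn ℂ Ψ U)
    (hinj : InjOn Ψ U) (Q : Set ℂ) (hQU : Q ⊆ U) (hint : (interior Q).Nonempty) :
    volume (Ψ '' Q) ≠ 0 := by
  obtain ⟨x, hx⟩ := hint
  obtain ⟨ε, hε, hb⟩ := Metric.isOpen_iff.mp isOpen_interior x hx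
  have hbQ : Metric.ball x ε ⊆ Q := hb.trans interior_subset
  have han : AnalyticOnNhd ℂ Ψ (Metric.ball x ε) :=
    (hΨ.mono (hbQ.trans hQU)).analyticOnNhd Metric.isOpen_ball
  have hop : IsOpen (Ψ '' Metric.ball x ε) := by
    rcases han.is_constant_or_isOpen (convex_ball x ε).isPreconnected with ⟨w, hw⟩ | h
    · exfalso
      have hx1 : x ∈ Metric.ball x ε := Metric.mem_ball_self hε
      have hx2 : x + (ε / 2 : ℝ) ∈ Metric.ball x ε := by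
        rw [Metric.mem_ball, dist_eq_norm, add_sub_cancel_left, Complex.norm_real,
          Real.norm_eq_abs, abs_of_pos (by linarith)]
        linarith
      have h1 := hinj (hQU (hbQ hx1)) (hQU (hbQ hx2)) ((hw _ hx1).trans (hw _ hx2).symm)
      have h2 : ((ε / 2 : ℝ) : ℂ) = 0 := by
        have := h1.symm
        simpa using this
      rw [Complex.ofReal_eq_zero] at h2
      linarith
    · exact h _ subset_rfl Metric.isOpen_ball
  have hne : (Ψ '' Metric.ball x ε).Nonempty := ⟨Ψ x, mem_image_of_mem _ (Metric.mem_ball_self hε)⟩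
  have hp : 0 < volume (Ψ '' Metric.ball x ε) := hop.measure_pos volume hne
  exact (hp.trans_le (measure_mono (image_mono hbQ))).ne'

/-- the length of the image of a path -/
theorem length_ge (Ψ : ℂ → ℂ) (U : Set ℂ) (hU : IsOpen U) (hΨ : DifferentiableOn ℂ Ψ U)
    (γ : ℝ → ℂ) (C : NNReal) (hγ : LipschitzWith C γ) (hγU : ∀ t ∈ Icc (0 : ℝ) 1, γ t ∈ U) :
    ENNReal.ofReal ‖Ψ (γ 1) - Ψ (γ 0)‖ ≤
      ∫⁻ t in Icc (0 : ℝ) 1, U.indicator (fun z => ‖deriv Ψ z‖ₑ) (γ t) * ‖deriv γ t‖ₑ := by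
  set v : ℂ := Ψ (γ 1) - Ψ (γ 0) with hv
  -- a unit vector which makes the difference real
  obtain ⟨u, hu1, hu2⟩ : ∃ u : ℂ, ‖u‖ ≤ 1 ∧ (u * v).re = ‖v‖ := by
    by_cases h0 : v = 0
    · exact ⟨0, by simp, by simp [h0]⟩
    · refine ⟨(starRingEnd ℂ) v / ‖v‖, ?_, ?_⟩
      · rw [norm_div, RCLike.norm_conj, Complex.norm_real, norm_norm,
          div_self (norm_ne_zero_iff.mpr h0)]
      · have hn : (‖v‖ : ℂ) ≠ 0 := by exact_mod_cast norm_ne_zero_iff.mpr h0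
        have : (starRingEnd ℂ) v / ‖v‖ * v = ((‖v‖ : ℝ) : ℂ) := by
          rw [div_mul_eq_mul_div, mul_comm, Complex.mul_conj, Complex.normSq_eq_norm_sq, div_eq_iff hn]
          push_cast
          ring
        rw [this, Complex.ofReal_re]
  let f : ℝ → ℝ := fun t => (u * Ψ (γ t)).re
  -- Lipschitz on the interval
  have hloc : LocallyLipschitzOn (Icc (0 : ℝ) 1) (fun t => Ψ (γ t)) := by
    intro t ht
    have hU' : U ∈ 𝓝 (γ t) := hU.mem_nhds (hγU t ht)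
    have hc : ContDiffAt ℂ 1 Ψ (γ t) :=
      ((hΨ.analyticOnNhd hU) _ (hγU t ht)).contDiffAt
    obtain ⟨K, s, hs, hK⟩ := hc.exists_lipschitzOnWith
    refine ⟨K * C, γ ⁻¹' s, mem_nhdsWithin_of_mem_nhds (hγ.continuous.continuousAt hs), ?_⟩
    exact hK.comp (hγ.lipschitzOnWith) (mapsTo_preimage γ s)
  obtain ⟨K, hK⟩ := hloc.exists_lipschitzOnWith_of_compact isCompact_Icc
  have hfL : LipschitzOnWith (1 * K) f (Icc (0 : ℝ) 1) := by
    have h1 : LipschitzWith 1 (fun z : ℂ => (u * z).re) := by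
      refine LipschitzWith.of_dist_le_mul fun x y => ?_
      rw [dist_eq_norm, dist_eq_norm, ← Complex.sub_re, ← mul_sub, NNReal.coe_one, one_mul,
        Real.norm_eq_abs]
      calc |(u * (x - y)).re| ≤ ‖u * (x - y)‖ := Complex.abs_re_le_norm _
        _ = ‖u‖ * ‖x - y‖ := norm_mul _ _
        _ ≤ 1 * ‖x - y‖ := mul_le_mul_of_nonneg_right hu1 (norm_nonneg _)
        _ = ‖x - y‖ := one_mul _
    exact h1.comp_lipschitzOnWith hK
  have hac : AbsolutelyContinuousOnInterval f 0 1 := by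
    apply LipschitzOnWith.absolutelyContinuousOnInterval
    rw [uIcc_of_le zero_le_one]
    exact hfL
  have hint := hac.integral_deriv_eq_sub
  have hf01 : f 1 - f 0 = ‖v‖ := by
    show (u * Ψ (γ 1)).re - (u * Ψ (γ 0)).re = ‖v‖
    rw [← Complex.sub_re, ← mul_sub, ← hv, hu2]
  rw [← hf01, ← hint, intervalIntegral.integral_of_le zero_le_one]
  -- bound the derivative
  have hae : ∀ᵐ t ∂(volume.restrict (Ioc (0 : ℝ) 1)),
      ‖deriv f t‖ₑ ≤ U.indicator (fun z => ‖deriv Ψ z‖ₑ) (γ t) * ‖deriv γ t‖ₑ := by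
    have h1 : ∀ᵐ t ∂(volume.restrict (Ioc (0 : ℝ) 1)), DifferentiableAt ℝ γ t :=
      ae_restrict_of_ae hγ.ae_differentiableAt_real
    filter_upwards [h1, ae_restrict_mem measurableSet_Ioc] with t ht htm
    have htU : γ t ∈ U := hγU t ⟨htm.1.le, htm.2⟩
    have hd1 : HasDerivAt Ψ (deriv Ψ (γ t)) (γ t) :=
      (hΨ.differentiableAt (hU.mem_nhds htU)).hasDerivAt
    have hd2 : HasDerivAt (fun s => Ψ (γ s)) (deriv γ t * deriv Ψ (γ t)) t := by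
      have h0 := (hd1.hasFDerivAt.restrictScalars ℝ).comp_hasDerivAt t ht.hasDerivAt
      have h1 : HasDerivAt (Ψ ∘ γ) (deriv γ t * deriv Ψ (γ t)) t := by simpa using h0
      exact h1
    have hd3 : HasDerivAt f ((u * (deriv γ t * deriv Ψ (γ t))).re) t := by
      have h3 := hd2.const_mul u
      have h4 := Complex.reCLM.hasFDerivAt.comp_hasDerivAt t h3
      exact h4
    rw [hd3.deriv, indicator_of_mem htU]
    show ‖(u * (deriv γ t * deriv Ψ (γ t))).re‖ₑ ≤ ‖deriv Ψ (γ t)‖ₑ * ‖deriv γ t‖ₑ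
    rw [← ofReal_norm, ← ofReal_norm, ← ofReal_norm,
      ← ENNReal.ofReal_mul (norm_nonneg _)]
    apply ENNReal.ofReal_le_ofReal
    calc ‖(u * (deriv γ t * deriv Ψ (γ t))).re‖
        ≤ ‖u * (deriv γ t * deriv Ψ (γ t))‖ := by
          rw [Real.norm_eq_abs]; exact Complex.abs_re_le_norm _
      _ = ‖u‖ * (‖deriv Ψ (γ t)‖ * ‖deriv γ t‖) := by rw [norm_mul, norm_mul, mul_comm ‖deriv γ t‖]
      _ ≤ 1 * (‖deriv Ψ (γ t)‖ * ‖deriv γ t‖) :=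
          mul_le_mul_of_nonneg_right hu1 (by positivity)
      _ = ‖deriv Ψ (γ t)‖ * ‖deriv γ t‖ := one_mul _
  calc ENNReal.ofReal (∫ t in Ioc (0 : ℝ) 1, deriv f t)
      ≤ ENNReal.ofReal ‖∫ t in Ioc (0 : ℝ) 1, deriv f t‖ :=
        ENNReal.ofReal_le_ofReal (Real.le_norm_self _)
    _ = ‖∫ t in Ioc (0 : ℝ) 1, deriv f t‖ₑ := ofReal_norm _
    _ ≤ ∫⁻ t in Ioc (0 : ℝ) 1, ‖deriv f t‖ₑ := enorm_integral_le_lintegral_enorm _
    _ ≤ ∫⁻ t in Ioc (0 : ℝ) 1, U.indicator (fun z => ‖deriv Ψ z‖ₑ) (γ t) * ‖deriv γ t‖ₑ :=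
        lintegral_mono_ae hae
    _ ≤ ∫⁻ t in Icc (0 : ℝ) 1, U.indicator (fun z => ‖deriv Ψ z‖ₑ) (γ t) * ‖deriv γ t‖ₑ :=
        lintegral_mono_set Ioc_subset_Icc_self

/-- the extremal distance from below, by the metric `|dΨ|` -/
theorem le_extDist (Ψ : ℂ → ℂ) (U : Set ℂ) (hU : IsOpen U) (hΨ : DifferentiableOn ℂ Ψ U)
    (hinj : InjOn Ψ U) (Q A B : Set ℂ) (hQ : IsCompact Q) (hQU : Q ⊆ U)
    (hint : (interior Q).Nonempty) {l m : ℝ} (hl : 0 ≤ l) (hm : 0 < m)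
    (hd : ∀ x ∈ A ∩ Q, ∀ y ∈ B ∩ Q, l ≤ ‖Ψ x - Ψ y‖)
    (hvol : volume (Ψ '' Q) ≤ ENNReal.ofReal m) :
    ENNReal.ofReal (l ^ 2 / m) ≤ extDist Q A B := by
  have harea := area_eq Ψ U hU hΨ hinj Q hQ hQU
  have hmeas : Measurable (U.indicator (fun z => ‖deriv Ψ z‖ₑ)) :=
    (measurable_deriv Ψ).enorm.indicator hU.measurableSet
  have h0 : ∫⁻ z in Q, (U.indicator (fun z => ‖deriv Ψ z‖ₑ) z) ^ 2 ≠ 0 := by
    rw [harea]
    exact area_pos Ψ U hΨ hinj Q hQU hint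
  have hfin : ∫⁻ z in Q, (U.indicator (fun z => ‖deriv Ψ z‖ₑ) z) ^ 2 ≠ ⊤ := by
    rw [harea]
    exact (hvol.trans_lt ENNReal.ofReal_lt_top).ne
  have hlen : ENNReal.ofReal l ≤ ⨅ (γ : ℝ → ℂ) (_ : (∃ C, LipschitzWith C γ) ∧
      (∀ t ∈ Icc (0 : ℝ) 1, γ t ∈ Q) ∧ γ 0 ∈ A ∧ γ 1 ∈ B),
      ∫⁻ t in Icc (0 : ℝ) 1, U.indicator (fun z => ‖deriv Ψ z‖ₑ) (γ t) * ‖deriv γ t‖ₑ := by
    refine le_iInf fun γ => le_iInf fun hγ => ?_
    obtain ⟨⟨C, hC⟩, hγQ, hA, hB⟩ := hγ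
    have h1 : l ≤ ‖Ψ (γ 1) - Ψ (γ 0)‖ := by
      rw [norm_sub_rev]
      exact hd _ ⟨hA, hγQ 0 ⟨le_rfl, zero_le_one⟩⟩ _ ⟨hB, hγQ 1 ⟨zero_le_one, le_rfl⟩⟩
    exact (ENNReal.ofReal_le_ofReal h1).trans
      (length_ge Ψ U hU hΨ γ C hC fun t ht => hQU (hγQ t ht))
  have hmain : ENNReal.ofReal (l ^ 2 / m) ≤
      (⨅ (γ : ℝ → ℂ) (_ : (∃ C, LipschitzWith C γ) ∧
        (∀ t ∈ Icc (0 : ℝ) 1, γ t ∈ Q) ∧ γ 0 ∈ A ∧ γ 1 ∈ B),
        ∫⁻ t in Icc (0 : ℝ) 1, U.indicator (fun z => ‖deriv Ψ z‖ₑ) (γ t) * ‖deriv γ t‖ₑ) ^ 2 /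
      ∫⁻ z in Q, (U.indicator (fun z => ‖deriv Ψ z‖ₑ) z) ^ 2 := by
    rw [ENNReal.ofReal_div_of_pos hm, ENNReal.ofReal_pow hl, harea]
    exact ENNReal.div_le_div (pow_le_pow_left₀ zero_le hlen 2) hvol
  unfold extDist
  exact hmain.trans (le_iSup_of_le (U.indicator (fun z => ‖deriv Ψ z‖ₑ))
    (le_iSup_of_le hmeas (le_iSup_of_le h0 (le_iSup_of_le hfin le_rfl))))

end Pool.Agent.DC.Wol
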