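import Pool.Agent.DC.D.Wol.Upper
import Pool.Agent.DC.D.Wol.Lower

/-!
# Project DC, block D: Wolpert's lemma, length-area inequality
-/

open scoped ENNReal UpperHalfPlane Matrix ContDiff
open MeasureTheory Set

namespace Pool.Agent.DC.Wol

theorem isOpen_HH : IsOpen HH := isOpen_lt continuous_const Complex.continuous_im

theorem isOpen_SS : IsOpen SS :=
  (isOpen_lt continuous_const Complex.continuous_im).inter
    (isOpen_lt Complex.continuous_im continuous_const)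

theorem coe_ofComplex {z : ℂ} (hz : z ∈ HH) : (UpperHalfPlane.ofComplex z : ℂ) = z := by
  rw [UpperHalfPlane.ofComplex_apply_of_im_pos hz]

theorem toC_mem (f : ℍ → ℍ) (z : ℂ) : toC f z ∈ HH := (f (UpperHalfPlane.ofComplex z)).im_pos

theorem toC_comp (f g : ℍ → ℍ) (z : ℂ) : toC f (toC g z) = toC (fun w => f (g w)) z := by
  unfold toC
  rw [UpperHalfPlane.ofComplex_apply]

theorem toC_id {z : ℂ} (hz : z ∈ HH) : toC (fun w => w) z = z := coe_ofComplex hz

theorem continuousOn_ofComplex : ContinuousOn UpperHalfPlane.ofComplex HH := by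
  rw [UpperHalfPlane.isOpenEmbedding_coe.isEmbedding.continuousOn_iff]
  exact continuousOn_id.congr fun z hz => coe_ofComplex hz

theorem continuousOn_toC {f : ℍ → ℍ} (hf : Continuous f) : ContinuousOn (toC f) HH := by
  unfold toC
  exact (UpperHalfPlane.continuous_coe.comp hf).comp_continuousOn continuousOn_ofComplex

theorem Chart.injOn {D : Set ℂ} (C : Chart D) : InjOn C.Φ D := fun w hw w' hw' h => by
  rw [← C.left w hw, ← C.left w' hw', h]

theorem Chart.injOn' {D : Set ℂ} (C : Chart D) : InjOn C.Ψ HH := fun w hw w' hw' h => by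
  rw [← C.right w hw, ← C.right w' hw', h]

/-- parametrisation of the rectangle by the unit square -/
noncomputable def sq (a b c d : ℝ) (p : ℝ × ℝ) : ℂ := ⟨a + p.1 * (b - a), c + p.2 * (d - c)⟩

theorem continuous_sq (a b c d : ℝ) : Continuous (sq a b c d) := by
  have e : sq a b c d = fun p : ℝ × ℝ => ((a + p.1 * (b - a) : ℝ) : ℂ) +
      ((c + p.2 * (d - c) : ℝ) : ℂ) * Complex.I := by
    funext p
    apply Complex.ext <;> simp [sq]
  rw [e]
  fun_prop

theorem sq_inj {a b c d : ℝ} (hab : a < b) (hcd : c < d) : Function.Injective (sq a b c d) := by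
  intro p p' h
  have h1 : a + p.1 * (b - a) = a + p'.1 * (b - a) := congrArg Complex.re h
  have h2 : c + p.2 * (d - c) = c + p'.2 * (d - c) := congrArg Complex.im h
  have hb : b - a ≠ 0 := (sub_pos.2 hab).ne'
  have hd : d - c ≠ 0 := (sub_pos.2 hcd).ne'
  exact Prod.ext (mul_right_cancel₀ hb (add_left_cancel h1))
    (mul_right_cancel₀ hd (add_left_cancel h2))

theorem sq_image {a b c d : ℝ} (hab : a < b) (hcd : c < d) :
    sq a b c d '' (Icc (0 : ℝ) 1 ×ˢ Icc (0 : ℝ) 1) = rect a b c d := by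
  have hb : 0 < b - a := sub_pos.2 hab
  have hd : 0 < d - c := sub_pos.2 hcd
  ext w
  constructor
  · rintro ⟨p, ⟨⟨h1, h2⟩, h3, h4⟩, rfl⟩
    refine ⟨⟨?_, ?_⟩, ?_, ?_⟩ <;> simp only [sq] <;> nlinarith
  · rintro ⟨⟨h1, h2⟩, h3, h4⟩
    refine ⟨((w.re - a) / (b - a), (w.im - c) / (d - c)), ⟨⟨?_, ?_⟩, ?_, ?_⟩, ?_⟩
    · exact div_nonneg (by linarith) hb.le
    · exact (div_le_one hb).2 (by linarith)
    · exact div_nonneg (by linarith) hd.le
    · exact (div_le_one hd).2 (by linarith)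
    · apply Complex.ext
      · simp only [sq]; field_simp; ring
      · simp only [sq]; field_simp; ring

theorem sq_image_left {a b c d : ℝ} (hcd : c < d) :
    sq a b c d '' ({(0 : ℝ)} ×ˢ Icc (0 : ℝ) 1) = rect a a c d := by
  have hd : 0 < d - c := sub_pos.2 hcd
  ext w
  constructor
  · rintro ⟨p, ⟨h1, h3, h4⟩, rfl⟩
    have h1' : p.1 = 0 := h1
    refine ⟨⟨?_, ?_⟩, ?_, ?_⟩ <;> simp only [sq, h1'] <;> nlinarith
  · rintro ⟨⟨h1, h2⟩, h3, h4⟩
    refine ⟨(0, (w.im - c) / (d - c)), ⟨rfl, ?_, ?_⟩, ?_⟩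
    · exact div_nonneg (by linarith) hd.le
    · exact (div_le_one hd).2 (by linarith)
    · apply Complex.ext
      · simp only [sq]; linarith
      · simp only [sq]; field_simp; ring

theorem sq_image_right {a b c d : ℝ} (hcd : c < d) :
    sq a b c d '' ({(1 : ℝ)} ×ˢ Icc (0 : ℝ) 1) = rect b b c d := by
  have hd : 0 < d - c := sub_pos.2 hcd
  ext w
  constructor
  · rintro ⟨p, ⟨h1, h3, h4⟩, rfl⟩
    have h1' : p.1 = 1 := h1
    refine ⟨⟨?_, ?_⟩, ?_, ?_⟩ <;> simp only [sq, h1'] <;> nlinarith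
  · rintro ⟨⟨h1, h2⟩, h3, h4⟩
    refine ⟨(1, (w.im - c) / (d - c)), ⟨rfl, ?_, ?_⟩, ?_⟩
    · exact div_nonneg (by linarith) hd.le
    · exact (div_le_one hd).2 (by linarith)
    · apply Complex.ext
      · simp only [sq]; linarith
      · simp only [sq]; field_simp; ring

/-- the length-area inequality for a quasiconformal map, in charts -/
theorem core (f : ℍ ≃ₜ ℍ) {K : ℝ} (hK : 0 ≤ K) (hf : IsQC K f) {D : Set ℂ} (hD : IsOpen D)
    (CA : Chart D) (CB : Chart SS) {a b c d : ℝ} (hab : a < b) (hcd : c < d)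
    (hR : rect a b c d ⊆ D) {l m : ℝ} (hl : 0 ≤ l) (hm : 0 < m)
    (hd : ∀ w ∈ rect a a c d, ∀ w' ∈ rect b b c d,
      l ≤ ‖CB.Ψ (toC f (CA.Φ w)) - CB.Ψ (toC f (CA.Φ w'))‖)
    (hvol : volume ((fun w => CB.Ψ (toC f (CA.Φ w))) '' rect a b c d) ≤ ENNReal.ofReal m) :
    l ^ 2 / m ≤ K * ((b - a) / (d - c)) := by
  set q : ℝ × ℝ → ℍ := fun p => UpperHalfPlane.ofComplex (CA.Φ (sq a b c d p)) with hq
  have hsub : ∀ p ∈ Icc (0 : ℝ) 1 ×ˢ Icc (0 : ℝ) 1, sq a b c d p ∈ D := fun p hp =>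
    hR (sq_image hab hcd ▸ mem_image_of_mem _ hp)
  have hcoe : ∀ p ∈ Icc (0 : ℝ) 1 ×ˢ Icc (0 : ℝ) 1, (q p : ℂ) = CA.Φ (sq a b c d p) :=
    fun p hp => coe_ofComplex (CA.mapsΦ (hsub p hp))
  have hcont : ContinuousOn q (Icc (0 : ℝ) 1 ×ˢ Icc (0 : ℝ) 1) := by
    refine continuousOn_ofComplex.comp (CA.dΦ.continuousOn.comp (continuous_sq a b c d).continuousOn
      hsub) fun p hp => CA.mapsΦ (hsub p hp)
  have hinj : InjOn q (Icc (0 : ℝ) 1 ×ˢ Icc (0 : ℝ) 1) := by
    intro p hp p' hp' h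
    have h1 : (q p : ℂ) = q p' := by rw [h]
    rw [hcoe p hp, hcoe p' hp'] at h1
    exact sq_inj hab hcd (CA.injOn (hsub p hp) (hsub p' hp') h1)
  have him : ∀ T : Set (ℝ × ℝ), T ⊆ Icc (0 : ℝ) 1 ×ˢ Icc (0 : ℝ) 1 →
      (fun p => (q p : ℂ)) '' T = CA.Φ '' (sq a b c d '' T) := by
    intro T hT
    rw [image_image]
    exact image_congr fun p hp => hcoe p (hT hp)
  have him' : ∀ T : Set (ℝ × ℝ), T ⊆ Icc (0 : ℝ) 1 ×ˢ Icc (0 : ℝ) 1 →
      (fun p => (f (q p) : ℂ)) '' T = (fun w => toC f (CA.Φ w)) '' (sq a b c d '' T) := by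
    intro T hT
    rw [image_image]
    exact image_congr fun p hp => rfl
  have h0 : ({(0 : ℝ)} ×ˢ Icc (0 : ℝ) 1 : Set (ℝ × ℝ)) ⊆ Icc (0 : ℝ) 1 ×ˢ Icc (0 : ℝ) 1 :=
    prod_mono (singleton_subset_iff.2 ⟨le_rfl, zero_le_one⟩) Subset.rfl
  have h1 : ({(1 : ℝ)} ×ˢ Icc (0 : ℝ) 1 : Set (ℝ × ℝ)) ⊆ Icc (0 : ℝ) 1 ×ˢ Icc (0 : ℝ) 1 :=
    prod_mono (singleton_subset_iff.2 ⟨zero_le_one, le_rfl⟩) Subset.rfl
  -- upper bound
  have hup : modulus q ≤ ENNReal.ofReal ((b - a) / (d - c)) := by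
    unfold modulus
    rw [him _ Subset.rfl, him _ h0, him _ h1, sq_image hab hcd, sq_image_left hcd,
      sq_image_right hcd]
    exact extDist_le CA.Φ D hD CA.dΦ CA.injOn hab hcd hR
  -- lower bound
  have hTc : ContinuousOn (fun w => toC f (CA.Φ w)) D :=
    (continuousOn_toC f.continuous).comp CA.dΦ.continuousOn CA.mapsΦ
  have hRc : IsCompact (rect a b c d) := by
    rw [← sq_image hab hcd]
    exact (isCompact_Icc.prod isCompact_Icc).image (continuous_sq a b c d)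
  have hlow : ENNReal.ofReal (l ^ 2 / m) ≤ modulus (fun p => f (q p)) := by
    unfold modulus
    rw [him' _ Subset.rfl, him' _ h0, him' _ h1, sq_image hab hcd, sq_image_left hcd,
      sq_image_right hcd]
    refine le_extDist CB.Ψ HH isOpen_HH CB.dΨ CB.injOn' _ _ _ (hRc.image_of_continuousOn
      (hTc.mono hR)) ?_ ?_ hl hm ?_ ?_
    · rintro z ⟨w, -, rfl⟩
      exact toC_mem f _
    · -- interior
      set O : Set ℂ := HH ∩ (fun z => CA.Ψ (toC f.symm z)) ⁻¹'
        {w | (w.re ∈ Ioo a b) ∧ w.im ∈ Ioo c d} with hO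
      have hgc : ContinuousOn (fun z => CA.Ψ (toC f.symm z)) HH :=
        CA.dΨ.continuousOn.comp (continuousOn_toC f.symm.continuous) fun z _ => toC_mem _ z
      have hopen : IsOpen O := by
        refine hgc.isOpen_inter_preimage isOpen_HH ?_
        exact (isOpen_Ioo.preimage Complex.continuous_re).inter
          (isOpen_Ioo.preimage Complex.continuous_im)
      have hOsub : O ⊆ (fun w => toC f (CA.Φ w)) '' rect a b c d := by
        rintro z ⟨hz, hz1, hz2⟩
        refine ⟨CA.Ψ (toC f.symm z), ⟨⟨hz1.1.le, hz1.2.le⟩, hz2.1.le, hz2.2.le⟩, ?_⟩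
        show toC f (CA.Φ (CA.Ψ (toC f.symm z))) = z
        rw [CA.right _ (toC_mem _ z), toC_comp]
        have : (fun w => f (f.symm w)) = fun w => w := funext fun w => f.apply_symm_apply w
        rw [this, toC_id hz]
      have hne : O.Nonempty := by
        set w0 : ℂ := ⟨(a + b) / 2, (c + d) / 2⟩ with hw0
        have hw0R : w0 ∈ rect a b c d := ⟨⟨by simp only [hw0]; linarith, by simp only [hw0]; linarith⟩,
          by simp only [hw0]; linarith, by simp only [hw0]; linarith⟩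
        refine ⟨toC f (CA.Φ w0), toC_mem _ _, ?_⟩
        show CA.Ψ (toC f.symm (toC f (CA.Φ w0))) ∈
          ({w | (w.re ∈ Ioo a b) ∧ w.im ∈ Ioo c d} : Set ℂ)
        rw [toC_comp]
        have : (fun w => f.symm (f w)) = fun w => w := funext fun w => f.symm_apply_apply w
        rw [this, toC_id (CA.mapsΦ (hR hw0R)), CA.left w0 (hR hw0R)]
        exact ⟨⟨by simp only [hw0]; linarith, by simp only [hw0]; linarith⟩,
          by simp only [hw0]; linarith, by simp only [hw0]; linarith⟩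
      exact hne.mono (interior_maximal hOsub hopen)
    · rintro x ⟨⟨w, hw, rfl⟩, -⟩ y ⟨⟨w', hw', rfl⟩, -⟩
      exact hd w hw w' hw'
    · rw [image_image]
      exact hvol
  have hqc := hf q hcont hinj
  have h2 : ENNReal.ofReal (l ^ 2 / m) ≤ ENNReal.ofReal (K * ((b - a) / (d - c))) :=
    calc ENNReal.ofReal (l ^ 2 / m) ≤ modulus (fun p => f (q p)) := hlow
      _ ≤ ENNReal.ofReal K * modulus q := hqc
      _ ≤ ENNReal.ofReal K * ENNReal.ofReal ((b - a) / (d - c)) := by gcongr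
      _ = ENNReal.ofReal (K * ((b - a) / (d - c))) := (ENNReal.ofReal_mul hK).symm
  have h3 : 0 ≤ K * ((b - a) / (d - c)) :=
    mul_nonneg hK (div_nonneg (sub_pos.2 hab).le (sub_pos.2 hcd).le)
  exact (ENNReal.ofReal_le_ofReal_iff h3).1 h2

end Pool.Agent.DC.Wol
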