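import Pool.Agent.DC.D.Base

/-!
# Project DC, block D: Wolpert's lemma, definitions
-/

open scoped ENNReal UpperHalfPlane Matrix ContDiff
open MeasureTheory Set

namespace Pool.Agent.DC.Wol

/-- the upper half plane -/
def HH : Set ℂ := {z | 0 < z.im}

/-- the strip of width `π` -/
def SS : Set ℂ := {w | 0 < w.im ∧ w.im < Real.pi}

/-- closed rectangle -/
def rect (a b c d : ℝ) : Set ℂ := {w | w.re ∈ Icc a b ∧ w.im ∈ Icc c d}

/-- a holomorphic chart of the upper half plane, defined on `D` -/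
structure Chart (D : Set ℂ) where
  Φ : ℂ → ℂ
  Ψ : ℂ → ℂ
  mapsΦ : MapsTo Φ D HH
  mapsΨ : MapsTo Ψ HH D
  left : ∀ w ∈ D, Ψ (Φ w) = w
  right : ∀ z ∈ HH, Φ (Ψ z) = z
  dΦ : DifferentiableOn ℂ Φ D
  dΨ : DifferentiableOn ℂ Ψ HH

/-- a self map of the upper half plane as a function of a complex variable -/
noncomputable def toC (f : ℍ → ℍ) (z : ℂ) : ℂ := (f (UpperHalfPlane.ofComplex z) : ℂ)

end Pool.Agent.DC.Wol
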