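import Pool.Agent.DC.D.Wol.Defs

/-!
# Project DC, Wolpert's lemma: the ends of the annulus
-/

open scoped ENNReal UpperHalfPlane Matrix ContDiff
open MeasureTheory Set

namespace Pool.Agent.DC.Wol

namespace EndsAux

/-- real translations preserve the strip -/
lemma add_mem {w : ℂ} (hw : w ∈ SS) (t : ℝ) : w + (t : ℂ) ∈ SS := by
  refine ⟨?_, ?_⟩
  · simpa using hw.1
  · simpa using hw.2

lemma perNat {F : ℂ → ℂ} {c l : ℝ} (hper : ∀ w ∈ SS, F (w + (c : ℂ)) = F w + (l : ℂ)) (n : ℕ) :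
    ∀ w ∈ SS, F (w + ((n * c : ℝ) : ℂ)) = F w + ((n * l : ℝ) : ℂ) := by
  induction n with
  | zero => intro w _; simp
  | succ n ih =>
    intro w hw
    have h1 : w + (((n + 1 : ℕ) * c : ℝ) : ℂ) = (w + ((n * c : ℝ) : ℂ)) + (c : ℂ) := by
      push_cast; ring
    rw [h1, hper _ (add_mem hw _), ih w hw]
    push_cast; ring

lemma perInt {F : ℂ → ℂ} {c l : ℝ} (hper : ∀ w ∈ SS, F (w + (c : ℂ)) = F w + (l : ℂ)) (k : ℤ)
    (w : ℂ) (hw : w ∈ SS) : F (w + ((k * c : ℝ) : ℂ)) = F w + ((k * l : ℝ) : ℂ) := by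
  obtain ⟨n, rfl | rfl⟩ := k.eq_nat_or_neg
  · simpa using perNat hper n w hw
  · have h := perNat hper n (w + ((((-(n : ℤ) : ℤ) : ℝ) * c : ℝ) : ℂ)) (add_mem hw _)
    have h1 : w + ((((-(n : ℤ) : ℤ) : ℝ) * c : ℝ) : ℂ) + ((n * c : ℝ) : ℂ) = w := by
      push_cast; ring
    rw [h1] at h
    rw [h]
    push_cast; ring

/-- on a closed band the height of `F` is bounded away from the two ends -/
lemma band {F : ℂ → ℂ} (hF : MapsTo F SS SS) (hFc : ContinuousOn F SS)
    {c l : ℝ} (hc : 0 < c) (hper : ∀ w ∈ SS, F (w + (c : ℂ)) = F w + (l : ℂ))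
    {a b : ℝ} (ha : 0 < a) (hab : a ≤ b) (hb : b < Real.pi) :
    ∃ m M, 0 < m ∧ M < Real.pi ∧ ∀ w : ℂ, a ≤ w.im → w.im ≤ b → m ≤ (F w).im ∧ (F w).im ≤ M := by
  have hK : IsCompact (Icc (0 : ℝ) c ×ℂ Icc a b) := isCompact_Icc.reProdIm isCompact_Icc
  have hKS : (Icc (0 : ℝ) c ×ℂ Icc a b) ⊆ SS := by
    intro w hw
    rw [Complex.mem_reProdIm] at hw
    exact ⟨lt_of_lt_of_le ha hw.2.1, lt_of_le_of_lt hw.2.2 hb⟩
  have hne : (Icc (0 : ℝ) c ×ℂ Icc a b).Nonempty := by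
    refine ⟨⟨0, a⟩, ?_⟩
    rw [Complex.mem_reProdIm]
    exact ⟨⟨le_rfl, hc.le⟩, ⟨le_rfl, hab⟩⟩
  have hcont : ContinuousOn (fun w => (F w).im) (Icc (0 : ℝ) c ×ℂ Icc a b) :=
    Complex.continuous_im.comp_continuousOn (hFc.mono hKS)
  obtain ⟨w0, hw0, hmin⟩ := hK.exists_isMinOn hne hcont
  obtain ⟨w1, hw1, hmax⟩ := hK.exists_isMaxOn hne hcont
  refine ⟨(F w0).im, (F w1).im, (hF (hKS hw0)).1, (hF (hKS hw1)).2, ?_⟩
  intro w h1 h2
  have hw : w ∈ SS := ⟨lt_of_lt_of_le ha h1, lt_of_le_of_lt h2 hb⟩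
  set k : ℤ := ⌊w.re / c⌋ with hk
  have hk1 : (k : ℝ) * c ≤ w.re := by
    have := Int.floor_le (w.re / c)
    rwa [le_div_iff₀ hc] at this
  have hk2 : w.re ≤ (k : ℝ) * c + c := by
    have := (Int.lt_floor_add_one (w.re / c)).le
    rw [div_le_iff₀ hc] at this
    nlinarith
  have hmem : w + ((((-k : ℤ) : ℝ) * c : ℝ) : ℂ) ∈ (Icc (0 : ℝ) c ×ℂ Icc a b) := by
    rw [Complex.mem_reProdIm]
    refine ⟨⟨?_, ?_⟩, ⟨?_, ?_⟩⟩
    · simp only [Complex.add_re, Complex.ofReal_re]; push_cast; linarith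
    · simp only [Complex.add_re, Complex.ofReal_re]; push_cast; linarith
    · simp only [Complex.add_im, Complex.ofReal_im]; linarith
    · simp only [Complex.add_im, Complex.ofReal_im]; linarith
  have himg : (F (w + ((((-k : ℤ) : ℝ) * c : ℝ) : ℂ))).im = (F w).im := by
    rw [perInt hper (-k) w hw]
    simp
  have e1 := hmin hmem
  have e2 := hmax hmem
  simp only [Set.mem_ofPred_eq, himg] at e1 e2
  exact ⟨e1, e2⟩

/-- a convex set in the strip avoiding the preimage of a band goes to one side -/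
lemma side {F : ℂ → ℂ} (hFc : ContinuousOn F SS) {A : Set ℂ} (hA : Convex ℝ A) (hAS : A ⊆ SS)
    {p q : ℝ} (hpq : p ≤ q) (hav : ∀ w ∈ A, ¬ (p ≤ (F w).im ∧ (F w).im ≤ q)) :
    (∀ w ∈ A, (F w).im < p) ∨ (∀ w ∈ A, q < (F w).im) := by
  by_contra hcon
  push Not at hcon
  obtain ⟨⟨w, hw, hwp⟩, ⟨w', hw', hwq⟩⟩ := hcon
  have hw1 : q < (F w).im := by
    by_contra h
    exact hav w hw ⟨hwp, not_lt.1 h⟩
  have hw2 : (F w').im < p := by
    by_contra h
    exact hav w' hw' ⟨not_lt.1 h, hwq⟩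
  have hcont : ContinuousOn (fun w => (F w).im) A :=
    Complex.continuous_im.comp_continuousOn (hFc.mono hAS)
  have hpre : IsPreconnected A := hA.isPreconnected
  have := hpre.intermediate_value hw' hw hcont
  obtain ⟨x, hx, hxe⟩ := this ⟨hw2.le, (hpq.trans hw1.le)⟩
  simp only at hxe
  exact hav x hx ⟨hxe.ge, hxe.le.trans hpq⟩

end EndsAux

open EndsAux

/-- an equivariant homeomorphism of the strip moves the two ends of the annulus to different ends -/
theorem ends (F G : ℂ → ℂ) (hF : MapsTo F SS SS) (hG : MapsTo G SS SS) (hFc : ContinuousOn F SS)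
    (hGc : ContinuousOn G SS) (hGF : ∀ w ∈ SS, G (F w) = w) (hFG : ∀ w ∈ SS, F (G w) = w)
    {c l : ℝ} (hc : 0 < c) (hl : 0 < l) (hper : ∀ w ∈ SS, F (w + (c : ℂ)) = F w + (l : ℂ))
    {ε : ℝ} (hε : 0 < ε) (hε1 : ε < Real.pi / 2) :
    ∃ η, 0 < η ∧ η < Real.pi / 2 ∧ η < ε ∧ ∀ w ∈ SS, ∀ w' ∈ SS, w.im = η → w'.im = Real.pi - η →
      Real.pi - 2 * ε ≤ ‖F w - F w'‖ := by
  have hpi := Real.pi_pos
  have hperG : ∀ z ∈ SS, G (z + (l : ℂ)) = G z + (c : ℂ) := by
    intro z hz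
    have h1 : F (G z + (c : ℂ)) = z + (l : ℂ) := by rw [hper _ (hG hz), hFG z hz]
    rw [← h1, hGF _ (add_mem (hG hz) c)]
  obtain ⟨m, M, hm, hM, hmM⟩ := band hG hGc hl hperG hε (by linarith : ε ≤ Real.pi - ε)
    (by linarith)
  set η : ℝ := min (min m (Real.pi - M)) ε / 2 with hη
  have hmin0 : 0 < min (min m (Real.pi - M)) ε := lt_min (lt_min hm (by linarith)) hε
  have hη0 : 0 < η := by rw [hη]; linarith
  have hηm : η < m := by
    have : min (min m (Real.pi - M)) ε ≤ m := (min_le_left _ _).trans (min_le_left _ _)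
    rw [hη]; linarith
  have hηM : η < Real.pi - M := by
    have : min (min m (Real.pi - M)) ε ≤ Real.pi - M := (min_le_left _ _).trans (min_le_right _ _)
    rw [hη]; linarith
  have hηε : η < ε := by
    have : min (min m (Real.pi - M)) ε ≤ ε := min_le_right _ _
    rw [hη]; linarith
  have hηpi : η < Real.pi / 2 := hηε.trans hε1
  refine ⟨η, hη0, hηpi, hηε, ?_⟩
  -- points near the ends do not go to the band
  have hav : ∀ w ∈ SS, (w.im ≤ η ∨ Real.pi - η ≤ w.im) →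
      ¬ (ε ≤ (F w).im ∧ (F w).im ≤ Real.pi - ε) := by
    intro w hw hor hb
    have h := hmM (F w) hb.1 hb.2
    rw [hGF w hw] at h
    rcases hor with h1 | h1
    · linarith [h.1]
    · linarith [h.2]
  set Lo : Set ℂ := {w | 0 < w.im ∧ w.im ≤ η} with hLo
  set Hi : Set ℂ := {w | Real.pi - η ≤ w.im ∧ w.im < Real.pi} with hHi
  have hLoc : Convex ℝ Lo := by
    have h1 : Convex ℝ {w : ℂ | 0 < w.im} := convex_halfSpace_im_gt 0
    have h2 : Convex ℝ {w : ℂ | w.im ≤ η} := convex_halfSpace_im_le η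
    exact h1.inter h2
  have hHic : Convex ℝ Hi := by
    have h1 : Convex ℝ {w : ℂ | Real.pi - η ≤ w.im} := convex_halfSpace_im_ge _
    have h2 : Convex ℝ {w : ℂ | w.im < Real.pi} := convex_halfSpace_im_lt _
    exact h1.inter h2
  have hLoS : Lo ⊆ SS := fun w hw => ⟨hw.1, by have := hw.2; linarith⟩
  have hHiS : Hi ⊆ SS := fun w hw => ⟨by have := hw.1; linarith, hw.2⟩
  have sLo := side hFc hLoc hLoS (by linarith : ε ≤ Real.pi - ε)
    (fun w hw => hav w (hLoS hw) (Or.inl hw.2))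
  have sHi := side hFc hHic hHiS (by linarith : ε ≤ Real.pi - ε)
    (fun w hw => hav w (hHiS hw) (Or.inr hw.1))
  obtain ⟨m', M', hm', hM', hmM'⟩ := band hF hFc hc hper hη0
    (by linarith : η ≤ Real.pi - η) (by linarith)
  have key : ∀ w ∈ SS, w.im = η → w ∈ Lo := fun w hw h => ⟨hw.1, h.le⟩
  have key' : ∀ w ∈ SS, w.im = Real.pi - η → w ∈ Hi := fun w hw h => ⟨h.ge, hw.2⟩
  intro w hw w' hw' hwi hwi'
  have hnorm : |(F w).im - (F w').im| ≤ ‖F w - F w'‖ := by
    have := Complex.abs_im_le_norm (F w - F w')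
    simpa using this
  rcases sLo with sLo | sLo <;> rcases sHi with sHi | sHi
  · exfalso
    have hall : ∀ v ∈ SS, (F v).im ≤ max M' ε := by
      intro v hv
      by_cases h1 : v.im ≤ η
      · exact (sLo v ⟨hv.1, h1⟩).le.trans (le_max_right _ _)
      · by_cases h2 : Real.pi - η ≤ v.im
        · exact (sHi v ⟨h2, hv.2⟩).le.trans (le_max_right _ _)
        · exact (hmM' v (not_le.1 h1).le (not_le.1 h2).le).2.trans (le_max_left _ _)
    have hmx : max M' ε < Real.pi := max_lt hM' (by linarith)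
    have hmx0 : 0 < max M' ε := lt_of_lt_of_le hε (le_max_right _ _)
    have hz : (⟨0, (max M' ε + Real.pi) / 2⟩ : ℂ) ∈ SS := by
      refine ⟨?_, ?_⟩
      · show 0 < (max M' ε + Real.pi) / 2
        linarith
      · show (max M' ε + Real.pi) / 2 < Real.pi
        linarith
    have h := hall _ (hG hz)
    rw [hFG _ hz] at h
    have h' : (max M' ε + Real.pi) / 2 ≤ max M' ε := h
    linarith
  · have h1 := sLo w (key w hw hwi)
    have h2 := sHi w' (key' w' hw' hwi')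
    have h3 : (F w').im - (F w).im ≤ |(F w).im - (F w').im| := by
      rw [abs_sub_comm]; exact le_abs_self _
    linarith
  · have h1 := sLo w (key w hw hwi)
    have h2 := sHi w' (key' w' hw' hwi')
    have h3 : (F w).im - (F w').im ≤ |(F w).im - (F w').im| := le_abs_self _
    linarith
  · exfalso
    have hall : ∀ v ∈ SS, min m' (Real.pi - ε) ≤ (F v).im := by
      intro v hv
      by_cases h1 : v.im ≤ η
      · exact (min_le_right _ _).trans (sLo v ⟨hv.1, h1⟩).le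
      · by_cases h2 : Real.pi - η ≤ v.im
        · exact (min_le_right _ _).trans (sHi v ⟨h2, hv.2⟩).le
        · exact (min_le_left _ _).trans (hmM' v (not_le.1 h1).le (not_le.1 h2).le).1
    have hmn0 : 0 < min m' (Real.pi - ε) := lt_min hm' (by linarith)
    have hmn : min m' (Real.pi - ε) ≤ Real.pi - ε := min_le_right _ _
    have hz : (⟨0, min m' (Real.pi - ε) / 2⟩ : ℂ) ∈ SS := by
      refine ⟨?_, ?_⟩
      · show 0 < min m' (Real.pi - ε) / 2
        linarith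
      · show min m' (Real.pi - ε) / 2 < Real.pi
        linarith
    have h := hall _ (hG hz)
    rw [hFG _ hz] at h
    have h' : min m' (Real.pi - ε) ≤ min m' (Real.pi - ε) / 2 := h
    linarith

end Pool.Agent.DC.Wol
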