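import Pool.Agent.DC.D.Wol.Defs

/-!
# Project DC, block D, Wolpert's lemma: the extremal distance of a conformal rectangle, from above
-/

open scoped ENNReal UpperHalfPlane Matrix ContDiff
open MeasureTheory Set

namespace Pool.Agent.DC.Wol

namespace Upper

theorem meas_rect (a b c d : ℝ) : MeasurableSet (rect a b c d) :=
  (Complex.measurable_re measurableSet_Icc).inter (Complex.measurable_im measurableSet_Icc)

theorem rect_eq (a b c d : ℝ) :
    rect a b c d = Complex.measurableEquivRealProd ⁻¹' (Icc a b ×ˢ Icc c d) := by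
  ext z
  exact Iff.rfl

theorem isCompact_rect (a b c d : ℝ) : IsCompact (rect a b c d) := by
  have h := (isCompact_Icc (a := a) (b := b)).reProdIm (isCompact_Icc (a := c) (b := d))
  exact h

theorem convex_rect (a b c d : ℝ) : Convex ℝ (rect a b c d) :=
  ((convex_Icc a b).linear_preimage Complex.reLm).inter
    ((convex_Icc c d).linear_preimage Complex.imLm)

theorem vol_rect {a b c d : ℝ} :
    volume (rect a b c d) = ENNReal.ofReal (b - a) * ENNReal.ofReal (d - c) := by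
  rw [rect_eq, Complex.volume_preserving_equiv_real_prod.measure_preimage
    (measurableSet_Icc.prod measurableSet_Icc).nullMeasurableSet, Measure.volume_eq_prod,
    Measure.prod_prod, Real.volume_Icc, Real.volume_Icc]

variable {Φ : ℂ → ℂ} {U : Set ℂ}

theorem diffAt (hU : IsOpen U) (hΦ : DifferentiableOn ℂ Φ U) {w : ℂ} (hw : w ∈ U) :
    DifferentiableAt ℂ Φ w := (hΦ w hw).differentiableAt (hU.mem_nhds hw)

/-- Lipschitz on the rectangle -/
theorem lip (hU : IsOpen U) (hΦ : DifferentiableOn ℂ Φ U) {a b c d : ℝ}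
    (hR : rect a b c d ⊆ U) : ∃ C, LipschitzOnWith C Φ (rect a b c d) := by
  have h1 : ContinuousOn (deriv Φ) U := (hΦ.deriv hU).continuousOn
  obtain ⟨C, hC⟩ := (isCompact_rect a b c d).exists_bound_of_continuousOn (h1.mono hR)
  refine ⟨C.toNNReal, Convex.lipschitzOnWith_of_nnnorm_deriv_le
    (fun x hx => diffAt hU hΦ (hR hx)) (fun x hx => ?_) (convex_rect a b c d)⟩
  rw [← NNReal.coe_le_coe, coe_nnnorm]
  exact (hC x hx).trans (Real.le_coe_toNNReal C)

/-- the segment, parametrised -/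
noncomputable def psi (a b t : ℝ) (s : ℝ) : ℂ :=
  ((a + max 0 (min 1 s) * (b - a) : ℝ) : ℂ) + t * Complex.I

theorem psi_mem {a b c d t : ℝ} (hab : a < b) (ht : t ∈ Icc c d) (s : ℝ) :
    psi a b t s ∈ rect a b c d := by
  have h0 : 0 ≤ max 0 (min 1 s) := le_max_left _ _
  have h1 : max 0 (min 1 s) ≤ 1 := max_le zero_le_one (min_le_left _ _)
  refine ⟨?_, ?_⟩
  · have : (psi a b t s).re = a + max 0 (min 1 s) * (b - a) := by
      simp [psi]
    rw [this]
    constructor <;> nlinarith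
  · have : (psi a b t s).im = t := by
      simp [psi]
    rw [this]
    exact ht

theorem psi_lip {a b t : ℝ} : ∃ C, LipschitzWith C (psi a b t) := by
  have hcl : LipschitzWith 1 (fun s : ℝ => max 0 (min 1 s)) :=
    (LipschitzWith.id.const_min 1).const_max 0
  refine ⟨|b - a|.toNNReal, LipschitzWith.of_dist_le_mul fun s s' => ?_⟩
  have h1 := hcl.dist_le_mul s s'
  rw [NNReal.coe_one, one_mul, Real.dist_eq] at h1
  rw [Real.coe_toNNReal _ (abs_nonneg _), Complex.dist_eq]
  have h2 : psi a b t s - psi a b t s' =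
      (((max 0 (min 1 s) - max 0 (min 1 s')) * (b - a) : ℝ) : ℂ) := by
    unfold psi
    push_cast
    ring
  rw [h2, Complex.norm_real, Real.norm_eq_abs, abs_mul, mul_comm]
  exact mul_le_mul_of_nonneg_left h1 (abs_nonneg _)

theorem psi_deriv {a b t s : ℝ} (hs : s ∈ Ioo (0 : ℝ) 1) :
    HasDerivAt (psi a b t) ((b - a : ℝ) : ℂ) s := by
  have h1 : psi a b t =ᶠ[nhds s] fun s : ℝ => ((a + s * (b - a) : ℝ) : ℂ) + t * Complex.I := by
    filter_upwards [isOpen_Ioo.mem_nhds hs] with x hx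
    unfold psi
    rw [min_eq_right hx.2.le, max_eq_right hx.1.le]
  have h2 : HasDerivAt (fun s : ℝ => a + s * (b - a)) (b - a) s := by
    have := ((hasDerivAt_id s).mul_const (b - a)).const_add a
    simpa using this
  have h3 := (h2.ofReal_comp).add_const ((t : ℂ) * Complex.I)
  exact h3.congr_of_eventuallyEq h1

/-- the infimum of the lengths is at most the length of a horizontal segment -/
theorem inf_le (hU : IsOpen U) (hΦ : DifferentiableOn ℂ Φ U) {a b c d : ℝ} (hab : a < b)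
    (hR : rect a b c d ⊆ U) (ρ : ℂ → ℝ≥0∞) {t : ℝ} (ht : t ∈ Icc c d) :
    (⨅ (γ : ℝ → ℂ) (_ : (∃ C, LipschitzWith C γ) ∧
        (∀ t ∈ Icc (0 : ℝ) 1, γ t ∈ Φ '' rect a b c d) ∧
        γ 0 ∈ Φ '' rect a a c d ∧ γ 1 ∈ Φ '' rect b b c d),
      ∫⁻ t in Icc (0 : ℝ) 1, ρ (γ t) * ‖deriv γ t‖ₑ) ≤
    ∫⁻ x in Icc a b, ρ (Φ (x + t * Complex.I)) * ‖deriv Φ (x + t * Complex.I)‖ₑ := by
  obtain ⟨C, hC⟩ := lip hU hΦ hR
  obtain ⟨C', hC'⟩ := psi_lip (a := a) (b := b) (t := t)
  have hlip : LipschitzWith (C * C') (Φ ∘ psi a b t) := by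
    rw [← lipschitzOnWith_univ]
    exact hC.comp hC'.lipschitzOnWith fun s _ => psi_mem hab ht s
  have hmem : (∃ C, LipschitzWith C (Φ ∘ psi a b t)) ∧
      (∀ s ∈ Icc (0 : ℝ) 1, (Φ ∘ psi a b t) s ∈ Φ '' rect a b c d) ∧
      (Φ ∘ psi a b t) 0 ∈ Φ '' rect a a c d ∧ (Φ ∘ psi a b t) 1 ∈ Φ '' rect b b c d := by
    refine ⟨⟨_, hlip⟩, fun s _ => ⟨_, psi_mem hab ht s, rfl⟩, ⟨_, ?_, rfl⟩, ⟨_, ?_, rfl⟩⟩
    · refine ⟨?_, ?_⟩
      · simp [psi]
      · simpa [psi] using ht
    · refine ⟨?_, ?_⟩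
      · simp [psi]
      · simpa [psi] using ht
  refine (iInf₂_le (Φ ∘ psi a b t) hmem).trans ?_
  · rw [← restrict_Ioo_eq_restrict_Icc]
    have e1 : ∀ s ∈ Ioo (0 : ℝ) 1, ρ ((Φ ∘ psi a b t) s) * ‖deriv (Φ ∘ psi a b t) s‖ₑ =
        ENNReal.ofReal |b - a| *
          (fun x : ℝ => ρ (Φ (x + t * Complex.I)) * ‖deriv Φ (x + t * Complex.I)‖ₑ)
            (a + s * (b - a)) := by
      intro s hs
      have h1 : psi a b t s = ((a + s * (b - a) : ℝ) : ℂ) + t * Complex.I := by
        unfold psi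
        rw [min_eq_right hs.2.le, max_eq_right hs.1.le]
      have h2 := (diffAt hU hΦ (hR (psi_mem hab ht s))).hasDerivAt.scomp s (psi_deriv hs)
      rw [h2.deriv, Function.comp_apply, h1, smul_eq_mul, enorm_mul]
      have h3 : ‖((b - a : ℝ) : ℂ)‖ₑ = ENNReal.ofReal |b - a| := by
        rw [← ofReal_norm, Complex.norm_real, Real.norm_eq_abs]
      rw [h3]
      simp only
      ring
    rw [setLIntegral_congr_fun measurableSet_Ioo e1]
    have h4 := lintegral_image_eq_lintegral_abs_deriv_mul (s := Ioo (0 : ℝ) 1)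
      (f := fun s : ℝ => a + s * (b - a)) (f' := fun _ => b - a) measurableSet_Ioo
      (fun x _ => by
        have := (((hasDerivAt_id x).mul_const (b - a)).const_add a).hasDerivWithinAt
          (s := Ioo (0 : ℝ) 1)
        simpa using this)
      (fun x _ y _ hxy => by
        have h5 : b - a ≠ 0 := sub_ne_zero.2 hab.ne'
        have h6 : x * (b - a) = y * (b - a) := by
          simpa using hxy
        exact mul_right_cancel₀ h5 h6)
      (fun x : ℝ => ρ (Φ (x + t * Complex.I)) * ‖deriv Φ (x + t * Complex.I)‖ₑ)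
    rw [← h4]
    refine lintegral_mono_set ?_
    rintro _ ⟨s, hs, rfl⟩
    simp only
    constructor <;> nlinarith [hs.1, hs.2]

/-- integral over the rectangle -/
theorem lint_rect {a b c d : ℝ} {F : ℂ → ℝ≥0∞} (hF : Measurable F) :
    ∫⁻ w in rect a b c d, F w =
      ∫⁻ t in Icc c d, ∫⁻ x in Icc a b, F (x + t * Complex.I) := by
  have h1 := Complex.volume_preserving_equiv_real_prod.setLIntegral_comp_preimage_emb
    Complex.measurableEquivRealProd.measurableEmbedding
    (fun p : ℝ × ℝ => F (p.1 + p.2 * Complex.I)) (Icc a b ×ˢ Icc c d)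
  rw [rect_eq]
  have h2 : ∀ w : ℂ, F w = (fun p : ℝ × ℝ => F (p.1 + p.2 * Complex.I))
      (Complex.measurableEquivRealProd w) := by
    intro w
    simp only [Complex.measurableEquivRealProd_apply, Complex.re_add_im]
  rw [lintegral_congr h2, h1, Measure.volume_eq_prod, ← Measure.prod_restrict,
    lintegral_prod_symm']
  have h3 : Measurable fun p : ℝ × ℝ => (p.1 : ℂ) + p.2 * Complex.I := by fun_prop
  exact hF.comp h3

/-- real determinant of a complex multiplication -/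
theorem det_mul (z : ℂ) :
    ((ContinuousLinearMap.toSpanSingleton ℂ z).restrictScalars ℝ : ℂ →L[ℝ] ℂ).det =
      ‖z‖ ^ 2 := by
  have h1 : (((ContinuousLinearMap.toSpanSingleton ℂ z).restrictScalars ℝ : ℂ →L[ℝ] ℂ) :
      ℂ →ₗ[ℝ] ℂ) = Algebra.lmul ℝ ℂ z := by
    refine LinearMap.ext fun x => ?_
    simp [mul_comm]
  rw [ContinuousLinearMap.det, h1, ← Algebra.norm_apply, Algebra.norm_complex_apply,
    Complex.normSq_eq_norm_sq]

/-- change of variables -/
theorem lint_image (hU : IsOpen U) (hΦ : DifferentiableOn ℂ Φ U) (hinj : InjOn Φ U)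
    {a b c d : ℝ} (hR : rect a b c d ⊆ U) (g : ℂ → ℝ≥0∞) :
    ∫⁻ z in Φ '' rect a b c d, g z = ∫⁻ w in rect a b c d, ‖deriv Φ w‖ₑ ^ 2 * g (Φ w) := by
  have h1 := lintegral_image_eq_lintegral_abs_det_fderiv_mul volume (s := rect a b c d)
    (f := Φ) (f' := fun w => (ContinuousLinearMap.toSpanSingleton ℂ (deriv Φ w)).restrictScalars ℝ)
    (meas_rect a b c d)
    (fun w hw => ((diffAt hU hΦ (hR hw)).hasDerivAt.hasFDerivAt.restrictScalars
      ℝ).hasFDerivWithinAt) (hinj.mono hR) g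
  rw [h1]
  refine lintegral_congr fun w => ?_
  rw [det_mul, abs_of_nonneg (by positivity), ENNReal.ofReal_pow (norm_nonneg _),
    ofReal_norm]

/-- Cauchy-Schwarz -/
theorem cs {s : Set ℂ} {F : ℂ → ℝ≥0∞} (hF : Measurable F) :
    (∫⁻ w in s, F w) ^ 2 ≤ volume s * ∫⁻ w in s, F w ^ 2 := by
  have h := ENNReal.lintegral_mul_le_Lp_mul_Lq (volume.restrict s)
    (p := 2) (q := 2) Real.HolderConjugate.two_two (f := F) (g := fun _ => 1) hF.aemeasurable
    aemeasurable_const
  simp only [Pi.mul_apply, mul_one, ENNReal.one_rpow, lintegral_const, one_mul,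
    Measure.restrict_apply MeasurableSet.univ, univ_inter] at h
  have h2 : ∫⁻ w in s, F w ^ (2 : ℝ) = ∫⁻ w in s, F w ^ 2 := by
    refine lintegral_congr fun w => ?_
    rw [← ENNReal.rpow_natCast]
    norm_num
  rw [h2] at h
  calc (∫⁻ w in s, F w) ^ 2
      ≤ ((∫⁻ w in s, F w ^ 2) ^ (1 / 2 : ℝ) * volume s ^ (1 / 2 : ℝ)) ^ 2 := by gcongr
    _ = volume s * ∫⁻ w in s, F w ^ 2 := by
      rw [mul_pow, ← ENNReal.rpow_natCast, ← ENNReal.rpow_natCast, ← ENNReal.rpow_mul,
        ← ENNReal.rpow_mul]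
      norm_num
      ring

end Upper

open Upper in
/-- the extremal distance of a conformal image of a rectangle, from above -/
theorem extDist_le (Φ : ℂ → ℂ) (U : Set ℂ) (hU : IsOpen U) (hΦ : DifferentiableOn ℂ Φ U)
    (hinj : InjOn Φ U) {a b c d : ℝ} (hab : a < b) (hcd : c < d) (hR : rect a b c d ⊆ U) :
    extDist (Φ '' rect a b c d) (Φ '' rect a a c d) (Φ '' rect b b c d) ≤
      ENNReal.ofReal ((b - a) / (d - c)) := by
  unfold extDist
  refine iSup_le fun ρ => iSup_le fun hρ => iSup_le fun h0 => iSup_le fun htop => ?_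
  refine ENNReal.div_le_of_le_mul ?_
  set A := ∫⁻ z in Φ '' rect a b c d, ρ z ^ 2 with hA
  set L := ⨅ (γ : ℝ → ℂ) (_ : (∃ C, LipschitzWith C γ) ∧
        (∀ t ∈ Icc (0 : ℝ) 1, γ t ∈ Φ '' rect a b c d) ∧
        γ 0 ∈ Φ '' rect a a c d ∧ γ 1 ∈ Φ '' rect b b c d),
      ∫⁻ t in Icc (0 : ℝ) 1, ρ (γ t) * ‖deriv γ t‖ₑ with hL
  classical
  let Φ₀ : ℂ → ℂ := (rect a b c d).piecewise Φ 0
  have hΦ₀ : Measurable Φ₀ :=
    ContinuousOn.measurable_piecewise (hΦ.continuousOn.mono hR) continuousOn_const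
      (meas_rect a b c d)
  have hΦ₀' : ∀ w ∈ rect a b c d, Φ₀ w = Φ w := fun w hw => piecewise_eq_of_mem _ _ _ hw
  let F : ℂ → ℝ≥0∞ := fun w => ρ (Φ₀ w) * ‖deriv Φ w‖ₑ
  have hF : Measurable F := (hρ.comp hΦ₀).mul (measurable_deriv Φ).enorm
  have h1 : ENNReal.ofReal (d - c) * L ≤ ∫⁻ w in rect a b c d, F w := by
    rw [lint_rect hF]
    calc ENNReal.ofReal (d - c) * L = ∫⁻ _t in Icc c d, L := by
          rw [lintegral_const, Measure.restrict_apply MeasurableSet.univ, univ_inter,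
            Real.volume_Icc, mul_comm]
      _ ≤ _ := by
          refine setLIntegral_mono_ae' measurableSet_Icc
            (Filter.Eventually.of_forall fun t ht => ?_)
          refine (inf_le hU hΦ hab hR ρ ht).trans (le_of_eq ?_)
          refine setLIntegral_congr_fun measurableSet_Icc fun x hx => ?_
          have h2 : (x : ℂ) + t * Complex.I ∈ rect a b c d := by
            refine ⟨?_, ?_⟩
            · simpa using hx
            · simpa using ht
          simp only [F, hΦ₀' _ h2]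
  have h2 : ∫⁻ w in rect a b c d, F w ^ 2 = A := by
    rw [hA, lint_image hU hΦ hinj hR]
    refine setLIntegral_congr_fun (meas_rect a b c d) fun w hw => ?_
    simp only [F, hΦ₀' _ hw]
    rw [mul_pow, mul_comm]
  have h3 := cs (s := rect a b c d) hF
  rw [h2, vol_rect] at h3
  have hD0 : ENNReal.ofReal (d - c) ≠ 0 := by
    rw [Ne, ENNReal.ofReal_eq_zero, not_le]
    linarith
  have hDt : ENNReal.ofReal (d - c) ≠ ⊤ := ENNReal.ofReal_ne_top
  have h4 : ENNReal.ofReal (d - c) * (ENNReal.ofReal (d - c) * L ^ 2) ≤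
      ENNReal.ofReal (d - c) * (ENNReal.ofReal (b - a) * A) := by
    calc ENNReal.ofReal (d - c) * (ENNReal.ofReal (d - c) * L ^ 2)
        = (ENNReal.ofReal (d - c) * L) ^ 2 := by ring
      _ ≤ (∫⁻ w in rect a b c d, F w) ^ 2 := by gcongr
      _ ≤ ENNReal.ofReal (b - a) * ENNReal.ofReal (d - c) * A := h3
      _ = _ := by ring
  have h5 := (ENNReal.mul_le_mul_iff_right hD0 hDt).1 h4
  rw [ENNReal.ofReal_div_of_pos (by linarith), ENNReal.div_eq_inv_mul, mul_assoc]
  calc L ^ 2 = (ENNReal.ofReal (d - c))⁻¹ * (ENNReal.ofReal (d - c) * L ^ 2) := by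
        rw [← mul_assoc, ENNReal.inv_mul_cancel hD0 hDt, one_mul]
    _ ≤ _ := by gcongr

end Pool.Agent.DC.Wol
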